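import Mathlib
import Pool.Graph.R_seed8.TH635.BV.Items

set_option autoImplicit false

/-!
# Iterated shift-invariant means
-/

namespace Pool.Agent.H39.BM

open Finset Filter Topology Pool.Agent.TH7.DH Pool.Agent.TH635.BV

/-- the iterated mean; the index `0` is the outermost -/
noncomputable def itm : (k : ℕ) → ((Fin k → ℕ) → ℝ) → ℝ
  | 0, F => F Fin.elim0
  | k + 1, F => mean (fun a => itm k (fun n => F (Fin.cons a n)))

lemma itm_zero (F : (Fin 0 → ℕ) → ℝ) : itm 0 F = F Fin.elim0 := rfl

lemma itm_succ (k : ℕ) (F : (Fin (k + 1) → ℕ) → ℝ) :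
    itm (k + 1) F = mean (fun a => itm k (fun n => F (Fin.cons a n))) := rfl

attribute [irreducible] itm

lemma itm_abs (k : ℕ) {F : (Fin k → ℕ) → ℝ} {B : ℝ} (h : ∀ n, |F n| ≤ B) : |itm k F| ≤ B := by
  induction k with
  | zero =>
    rw [itm_zero]
    exact h _
  | succ k ih =>
    rw [itm_succ]
    exact mean_abs fun a => ih fun n => h _

/-- boundedness -/
def BB {k : ℕ} (F : (Fin k → ℕ) → ℝ) : Prop := ∃ B : ℝ, ∀ n, |F n| ≤ B

lemma BB.cons {k : ℕ} {F : (Fin (k + 1) → ℕ) → ℝ} (h : BB F) (a : ℕ) :
    BB (fun n => F (Fin.cons a n)) := by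
  obtain ⟨B, hB⟩ := h
  exact ⟨B, fun n => hB _⟩

lemma BB.itm {k : ℕ} {F : (Fin (k + 1) → ℕ) → ℝ} (h : BB F) :
    Bdd (fun a => itm k (fun n => F (Fin.cons a n))) := by
  obtain ⟨B, hB⟩ := h
  exact ⟨B, fun a => itm_abs k fun n => hB _⟩

lemma BB.add {k : ℕ} {F G : (Fin k → ℕ) → ℝ} (hF : BB F) (hG : BB G) : BB (fun n => F n + G n) := by
  obtain ⟨B, hB⟩ := hF
  obtain ⟨C, hC⟩ := hG
  exact ⟨B + C, fun n => (abs_add_le _ _).trans (add_le_add (hB n) (hC n))⟩

lemma BB.smul {k : ℕ} {F : (Fin k → ℕ) → ℝ} (t : ℝ) (hF : BB F) : BB (fun n => t * F n) := by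
  obtain ⟨B, hB⟩ := hF
  refine ⟨|t| * B, fun n => ?_⟩
  rw [abs_mul]
  exact mul_le_mul_of_nonneg_left (hB n) (abs_nonneg t)

lemma bb_const (k : ℕ) (t : ℝ) : BB (fun _ : Fin k → ℕ => t) := ⟨|t|, fun _ => le_rfl⟩

lemma bb_sum {k : ℕ} {I : Type} (s : Finset I) (F : I → (Fin k → ℕ) → ℝ) (h : ∀ i ∈ s, BB (F i)) :
    BB (fun n => ∑ i ∈ s, F i n) := by
  classical
  induction s using Finset.induction_on with
  | empty => simpa using bb_const k 0
  | insert i s hi ih =>
    simp only [Finset.sum_insert hi]
    exact (h i (mem_insert_self _ _)).add (ih fun j hj => h j (mem_insert_of_mem hj))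

lemma itm_const (k : ℕ) (t : ℝ) : itm k (fun _ => t) = t := by
  induction k with
  | zero => rw [itm_zero]
  | succ k ih =>
    rw [itm_succ]
    simp only [ih]
    exact mean_const t

lemma itm_add (k : ℕ) {F G : (Fin k → ℕ) → ℝ} (hF : BB F) (hG : BB G) :
    itm k (fun n => F n + G n) = itm k F + itm k G := by
  induction k with
  | zero => rw [itm_zero, itm_zero, itm_zero]
  | succ k ih =>
    rw [itm_succ, itm_succ, itm_succ]
    rw [← mean_add hF.itm hG.itm]
    congr 1
    funext a
    exact ih (hF.cons a) (hG.cons a)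

lemma itm_smul (k : ℕ) (t : ℝ) {F : (Fin k → ℕ) → ℝ} (hF : BB F) :
    itm k (fun n => t * F n) = t * itm k F := by
  induction k with
  | zero => rw [itm_zero, itm_zero]
  | succ k ih =>
    rw [itm_succ, itm_succ]
    rw [← mean_smul t hF.itm]
    congr 1
    funext a
    exact ih (hF.cons a)

lemma itm_sum (k : ℕ) {I : Type} (s : Finset I) (F : I → (Fin k → ℕ) → ℝ)
    (h : ∀ i ∈ s, BB (F i)) : itm k (fun n => ∑ i ∈ s, F i n) = ∑ i ∈ s, itm k (F i) := by
  classical
  induction s using Finset.induction_on with
  | empty => simpa using itm_const k 0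
  | insert i s hi ih =>
    simp only [Finset.sum_insert hi]
    rw [itm_add k (h i (mem_insert_self _ _))
      (bb_sum s F fun j hj => h j (mem_insert_of_mem hj)),
      ih fun j hj => h j (mem_insert_of_mem hj)]

lemma itm_mono (k : ℕ) {F G : (Fin k → ℕ) → ℝ} (hF : BB F) (hG : BB G) (h : ∀ n, F n ≤ G n) :
    itm k F ≤ itm k G := by
  induction k with
  | zero =>
    rw [itm_zero, itm_zero]
    exact h _
  | succ k ih =>
    rw [itm_succ, itm_succ]
    exact mean_mono hF.itm hG.itm fun a => ih (hF.cons a) (hG.cons a) fun n => h _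

/-- invariance under shifts -/
lemma itm_shift (k : ℕ) (c : Fin k → ℕ) {F : (Fin k → ℕ) → ℝ} (hF : BB F) :
    itm k (fun n => F (fun i => n i + c i)) = itm k F := by
  induction k with
  | zero =>
    rw [itm_zero, itm_zero]
    congr 1
    funext i
    exact i.elim0
  | succ k ih =>
    rw [itm_succ, itm_succ]
    set g : ℕ → ℝ := fun a => itm k (fun n => F (Fin.cons a n)) with hg
    have h1 : ∀ a, itm k (fun n => F (fun i => (Fin.cons a n : Fin (k + 1) → ℕ) i + c i))
        = g (a + c 0) := by
      intro a
      have h2 := ih (fun i => c i.succ) (hF.cons (a + c 0))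
      change _ = itm k (fun n => F (Fin.cons (a + c 0) n))
      rw [← h2]
      congr 1
      funext n
      congr 1
      funext i
      refine Fin.cases ?_ (fun j => ?_) i
      · simp
      · simp
    have h3 : mean (fun a => itm k (fun n => F (fun i => (Fin.cons a n : Fin (k + 1) → ℕ) i + c i)))
        = mean (fun a => g (a + c 0)) := congrArg mean (funext h1)
    have hb : Bdd g := hF.itm
    exact h3.trans (mean_shift (c 0) hb)

/-- sizes of merged blocks -/
def mg {k : ℕ} (π : Fin k → ℕ) (l : ℕ) (n : Fin k → ℕ) (b : Fin l) : ℕ :=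
  ∑ a, if π a = b.1 then n a else 0

lemma mg_cons {k l : ℕ} (π : Fin (k + 1) → ℕ) (a : ℕ) (n : Fin k → ℕ) (b : Fin l) :
    mg π l (Fin.cons a n) b = (if π 0 = b.1 then a else 0) + mg (fun i => π i.succ) l n b := by
  unfold mg
  rw [Fin.sum_univ_succ]
  simp

/-- `π` maps the positions `a` with `π a < l` onto the positions below `l`, and the last
preimages are increasing -/
def Emb {k : ℕ} (l : ℕ) (π : Fin k → ℕ) : Prop :=
  ∃ σ : Fin l → Fin k, StrictMono σ ∧ (∀ b, π (σ b) = b.1) ∧ ∀ a b, π a = b.1 → a ≤ σ b

theorem itm_emb : ∀ (k l : ℕ) (π : Fin k → ℕ), Emb l π → ∀ {G : (Fin l → ℕ) → ℝ}, BB G →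
    itm k (fun n => G (mg π l n)) = itm l G := by
  intro k
  induction k with
  | zero =>
    intro l π hπ G _
    obtain ⟨σ, -, -, -⟩ := hπ
    rcases l with _ | l
    · rw [itm_zero, itm_zero]
      congr 1
      funext i
      exact i.elim0
    · exact (σ 0).elim0
  | succ k ih =>
    intro l π hπ G hG
    obtain ⟨σ, hσ, h1, h2⟩ := hπ
    rw [itm_succ]
    by_cases h0 : ∃ b, σ b = 0
    · -- the first block is a block of its own
      obtain ⟨b, hb⟩ := h0
      rcases l with _ | l
      · exact b.elim0
      have hb0 : b = 0 := by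
        by_contra hne
        have h3 : (0 : Fin (l + 1)) < b := Fin.pos_of_ne_zero hne
        have h4 := hσ h3
        rw [hb] at h4
        exact absurd h4 (Fin.not_lt_zero _)
      rw [hb0] at hb
      have hπ0 : π 0 = 0 := by
        have := h1 0
        rw [hb] at this
        simpa using this
      have hne : ∀ i : Fin k, π i.succ ≠ 0 := by
        intro i hi
        have h3 := h2 i.succ 0 (by simpa using hi)
        rw [hb] at h3
        exact absurd (Fin.le_zero_iff.1 h3) (Fin.succ_ne_zero i)
      set π' : Fin k → ℕ := fun i => π i.succ - 1 with hπ'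
      have hE : Emb l π' := by
        have hs : ∀ b : Fin l, σ b.succ ≠ 0 := by
          intro b hb'
          have h3 := hσ (Fin.succ_pos b)
          rw [hb', hb] at h3
          exact absurd h3 (lt_irrefl _)
        refine ⟨fun b => (σ b.succ).pred (hs b), ?_, ?_, ?_⟩
        · intro x y hxy
          have h3 := hσ (Fin.succ_lt_succ_iff.2 hxy)
          exact (Fin.pred_lt_pred_iff).2 h3
        · intro b
          simp only [hπ', Fin.succ_pred]
          rw [h1]
          simp
        · intro a b hab
          have h3 := h2 a.succ b.succ (by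
            have h4 := hne a
            simp only [hπ'] at hab
            rw [Fin.val_succ]
            omega)
          rw [← Fin.succ_le_succ_iff, Fin.succ_pred]
          exact h3
      have h5 : ∀ a, itm k (fun n => G (mg π (l + 1) (Fin.cons a n)))
          = itm l (fun m => G (Fin.cons a m)) := by
        intro a
        rw [← ih l π' hE (hG.cons a)]
        congr 1
        funext n
        congr 1
        funext b
        rw [mg_cons]
        refine Fin.cases ?_ (fun j => ?_) b
        · rw [hπ0]
          have h6 : mg (fun i => π i.succ) (l + 1) n 0 = 0 := by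
            unfold mg
            refine Finset.sum_eq_zero fun i _ => ?_
            rw [if_neg (by simpa using hne i)]
          rw [h6]
          simp
        · rw [hπ0]
          have h6 : mg (fun i => π i.succ) (l + 1) n j.succ = mg π' l n j := by
            unfold mg
            refine Finset.sum_congr rfl fun i _ => ?_
            have h7 := hne i
            have h8 : (π i.succ = (j.succ : Fin (l + 1)).1) ↔ (π' i = j.1) := by
              simp only [hπ', Fin.val_succ]
              omega
            simp only [h8]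
          rw [h6, Fin.cons_succ, if_neg (by simp), zero_add]
      simp only [h5]
      rw [itm_succ]
    · push Not at h0
      -- the first block is dropped or merged with a later one
      have hE : Emb l (fun i => π i.succ) := by
        refine ⟨fun b => (σ b).pred (h0 b), ?_, ?_, ?_⟩
        · intro x y hxy
          exact (Fin.pred_lt_pred_iff).2 (hσ hxy)
        · intro b
          simp only [Fin.succ_pred]
          exact h1 b
        · intro a b hab
          rw [← Fin.succ_le_succ_iff, Fin.succ_pred]
          exact h2 _ _ hab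
      have h5 : ∀ a, itm k (fun n => G (mg π l (Fin.cons a n))) = itm l G := by
        intro a
        have hG' : BB (fun m : Fin l → ℕ => G (fun b => m b + if π 0 = b.1 then a else 0)) := by
          obtain ⟨B, hB⟩ := hG
          exact ⟨B, fun n => hB _⟩
        have h6 := ih l (fun i => π i.succ) hE hG'
        rw [itm_shift l (fun b : Fin l => if π 0 = b.1 then a else 0) hG] at h6
        rw [← h6]
        congr 1
        funext n
        congr 1
        funext b
        rw [mg_cons, add_comm]
      simp only [h5]
      exact mean_const _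

end Pool.Agent.H39.BM
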