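import Mathlib
import Pool.Agent.H39.BM.Itm

set_option autoImplicit false

/-!
# Block laws: joint laws of blow-ups of patterns over few blocks, each block much larger than the
previous ones
-/

namespace Pool.Agent.H39.BM

open Finset Filter Topology Pool.Agent.TH7.DH Pool.Agent.TH635.BV

/-- the blow-up of a block pattern -/
def bl {k : ℕ} (n : Fin k → ℕ) (P : ℕ → ℕ → Prop) : (Fin 2 → (Σ i : Fin k, Fin (n i))) → Prop :=
  fun c => P (c 0).1.1 (c 1).1.1

lemma card_fib {k l : ℕ} (π : Fin k → ℕ) (n : Fin k → ℕ) (b : Fin l) :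
    Fintype.card (Fin (mg π l n b)) = Fintype.card {x : Σ i : Fin k, Fin (n i) // π x.1 = b.1} := by
  classical
  rw [Fintype.card_fin, Fintype.card_subtype, Finset.card_filter, Fintype.sum_sigma]
  unfold mg
  refine Finset.sum_congr rfl fun a _ => ?_
  split_ifs <;> simp

/-- the bijection of the merged block with the union of its parts -/
noncomputable def fib {k l : ℕ} (π : Fin k → ℕ) (n : Fin k → ℕ) (b : Fin l) :
    Fin (mg π l n b) ≃ {x : Σ i : Fin k, Fin (n i) // π x.1 = b.1} :=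
  Fintype.equivOfCardEq (card_fib π n b)

/-- the embedding of the merged blocks -/
noncomputable def fibE {k : ℕ} (l : ℕ) (π : Fin k → ℕ) (n : Fin k → ℕ) :
    (Σ b : Fin l, Fin (mg π l n b)) ↪ (Σ i : Fin k, Fin (n i)) where
  toFun x := (fib π n x.1 x.2).1
  inj' := by
    rintro ⟨b, i⟩ ⟨b', i'⟩ h
    have h1 := (fib π n b i).2
    have h2 := (fib π n b' i').2
    have h3 : (fib π n b i).1 = (fib π n b' i').1 := h
    rw [h3, h2] at h1
    have h4 : b' = b := Fin.ext h1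
    subst h4
    have h5 : fib π n b' i = fib π n b' i' := Subtype.ext h3
    rw [(fib π n b').injective h5]

lemma fibE_fst {k : ℕ} (l : ℕ) (π : Fin k → ℕ) (n : Fin k → ℕ) (x : Σ b : Fin l, Fin (mg π l n b)) :
    π (fibE l π n x).1 = x.1.1 := (fib π n x.1 x.2).2

lemma fibE_range {k : ℕ} (l : ℕ) (π : Fin k → ℕ) (n : Fin k → ℕ) (z : Σ i : Fin k, Fin (n i))
    (hz : π z.1 < l) : z ∈ Set.range (fibE l π n) :=
  ⟨⟨⟨π z.1, hz⟩, (fib π n ⟨π z.1, hz⟩).symm ⟨z, rfl⟩⟩, by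
    change (fib π n ⟨π z.1, hz⟩ ((fib π n ⟨π z.1, hz⟩).symm ⟨z, rfl⟩)).1 = z
    rw [Equiv.apply_symm_apply]⟩

variable (X : Fam)

theorem lawS {J : Type} [Finite J] (j₀ : J) {k l : ℕ} (π : Fin k → ℕ) (n : Fin k → ℕ)
    (P P' : J → ℕ → ℕ → Prop)
    (hA : ∀ j (x y : Fin k), π x < l → π y < l → (P j x y ↔ P' j (π x) (π y)))
    (hB : ∀ j (x y : Fin k), (¬ π x < l ∨ ¬ π y < l) → (P j x y ↔ P j₀ x y))
    (Φ : (J → Prop) → ℝ) :
    X.E (Σ i : Fin k, Fin (n i)) (fun U => Φ (fun j => U (bl n (P j))))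
      = X.E (Σ i : Fin l, Fin (mg π l n i)) (fun U => Φ (fun j => U (bl (mg π l n) (P' j)))) := by
  rw [X.E_loc (fibE l π n) j₀ (fun j => bl n (P j)) ?_ Φ]
  · congr 1
    funext U
    congr 1
    funext j
    congr 1
    funext c
    refine propext ?_
    change P j (fibE l π n (c 0)).1 (fibE l π n (c 1)).1 ↔ P' j (c 0).1.1 (c 1).1.1
    have e0 := fibE_fst l π n (c 0)
    have e1 := fibE_fst l π n (c 1)
    rw [hA j _ _ (by rw [e0]; exact (c 0).1.2) (by rw [e1]; exact (c 1).1.2), e0, e1]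
  · rintro c ⟨t, ht⟩ j
    refine hB j _ _ ?_
    have h2 : ¬ π (c t).1 < l := fun h => ht (fibE_range l π n _ h)
    fin_cases t
    · exact Or.inl h2
    · exact Or.inr h2

/-- the block law -/
noncomputable def bm (k : ℕ) {J : Type} (P : J → ℕ → ℕ → Prop) (Φ : (J → Prop) → ℝ) : ℝ :=
  itm k (fun n => X.E (Σ i : Fin k, Fin (n i)) (fun U => Φ (fun j => U (bl n (P j)))))

lemma exBd {J : Type} [Finite J] (Φ : (J → Prop) → ℝ) : ∃ B : ℝ, 0 ≤ B ∧ ∀ v, |Φ v| ≤ B := by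
  obtain ⟨B, hB⟩ := (Set.finite_range (fun v => |Φ v|)).bddAbove
  exact ⟨max B 0, le_max_right _ _, fun v => (hB ⟨v, rfl⟩).trans (le_max_left _ _)⟩

lemma bm_bb (k : ℕ) {J : Type} [Finite J] (P : J → ℕ → ℕ → Prop) (Φ : (J → Prop) → ℝ) :
    BB (fun n : Fin k → ℕ =>
      X.E (Σ i : Fin k, Fin (n i)) (fun U => Φ (fun j => U (bl n (P j))))) := by
  obtain ⟨B, hB0, hB⟩ := exBd Φ
  exact ⟨B, fun n => X.E_abs hB0 fun U => hB _⟩

lemma bm_add (k : ℕ) {J : Type} [Finite J] (P : J → ℕ → ℕ → Prop) (Φ Ψ : (J → Prop) → ℝ) :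
    bm X k P (fun v => Φ v + Ψ v) = bm X k P Φ + bm X k P Ψ := by
  unfold bm
  rw [← itm_add k (bm_bb X k P Φ) (bm_bb X k P Ψ)]
  congr 1
  funext n
  exact X.E_add _ _

lemma bm_smul (k : ℕ) {J : Type} [Finite J] (P : J → ℕ → ℕ → Prop) (t : ℝ)
    (Φ : (J → Prop) → ℝ) : bm X k P (fun v => t * Φ v) = t * bm X k P Φ := by
  unfold bm
  rw [← itm_smul k t (bm_bb X k P Φ)]
  congr 1
  funext n
  exact X.E_smul _ _

lemma bm_const (k : ℕ) {J : Type} (P : J → ℕ → ℕ → Prop) (t : ℝ) :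
    bm X k P (fun _ => t) = t := by
  unfold bm
  have h1 : ∀ n : Fin k → ℕ, X.E (Σ i : Fin k, Fin (n i)) (fun _ => t) = t := fun n =>
    X.E_const t
  simp only [h1]
  exact itm_const k t

lemma bm_sum (k : ℕ) {J I : Type} [Finite J] (P : J → ℕ → ℕ → Prop) (s : Finset I)
    (Φ : I → (J → Prop) → ℝ) :
    bm X k P (fun v => ∑ i ∈ s, Φ i v) = ∑ i ∈ s, bm X k P (Φ i) := by
  classical
  induction s using Finset.induction_on with
  | empty => simpa using bm_const X k P 0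
  | insert i s hi ih =>
    simp only [Finset.sum_insert hi]
    rw [← ih, ← bm_add]

/-- `q` is `p` with a square of blocks added -/
def Adj (k : ℕ) (p q : ℕ → ℕ → Prop) : Prop :=
  ∃ γ : Finset (Fin k), γ.Nonempty ∧ (∀ x ∈ γ, ∀ y ∈ γ, ¬ p x y) ∧
    ∀ x y : Fin k, (q x y ↔ p x y ∨ (x ∈ γ ∧ y ∈ γ))

theorem bm_mono (hX : X.Bad) (k : ℕ) {J : Type} [Finite J] (P : J → ℕ → ℕ → Prop)
    (Φ Ψ : (J → Prop) → ℝ)
    (h : ∀ v, (∀ i j, Adj k (P i) (P j) → ¬ (v i ∧ v j)) → Φ v ≤ Ψ v) :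
    bm X k P Φ ≤ bm X k P Ψ := by
  classical
  unfold bm
  rw [← itm_shift k (fun _ => 1) (bm_bb X k P Φ), ← itm_shift k (fun _ => 1) (bm_bb X k P Ψ)]
  have sh : ∀ {F : (Fin k → ℕ) → ℝ}, BB F → BB (fun n => F (fun i => n i + 1)) := by
    rintro F ⟨B, hB⟩
    exact ⟨B, fun n => hB _⟩
  refine itm_mono k (sh (bm_bb X k P Φ)) (sh (bm_bb X k P Ψ)) fun n => ?_
  refine X.E_mono hX fun U hU => ?_
  refine h _ ?_
  rintro i j ⟨γ, ⟨a, ha⟩, h1, h2⟩
  have h3 := hU (bl (fun i => n i + 1) (P i)) (univ.filter (fun x => x.1 ∈ γ))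
    ⟨⟨a, ⟨0, Nat.succ_pos _⟩⟩, by simpa using ha⟩ (fun c hc => by
      have e0 := hc 0
      have e1 := hc 1
      simp only [mem_filter, mem_univ, true_and] at e0 e1
      exact h1 _ e0 _ e1)
  have h4 : (fun c => bl (fun i => n i + 1) (P i) c ∨
      ∀ t, c t ∈ univ.filter (fun x : Σ i : Fin k, Fin (n i + 1) => x.1 ∈ γ))
      = bl (fun i => n i + 1) (P j) := by
    funext c
    refine propext ?_
    change (P i (c 0).1 (c 1).1 ∨ _) ↔ P j (c 0).1 (c 1).1
    rw [h2, Fin.forall_fin_two]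
    simp only [mem_filter, mem_univ, true_and]
  rw [h4] at h3
  exact h3

theorem bm_emb {J : Type} [Finite J] (j₀ : J) {k l : ℕ} (π : Fin k → ℕ) (hπ : Emb l π)
    (P P' : J → ℕ → ℕ → Prop)
    (hA : ∀ j (x y : Fin k), π x < l → π y < l → (P j x y ↔ P' j (π x) (π y)))
    (hB : ∀ j (x y : Fin k), (¬ π x < l ∨ ¬ π y < l) → (P j x y ↔ P j₀ x y))
    (Φ : (J → Prop) → ℝ) : bm X k P Φ = bm X l P' Φ := by
  unfold bm
  have h1 := itm_emb k l π hπ (bm_bb X l P' Φ)
  rw [← h1]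
  congr 1
  funext n
  exact lawS X j₀ π n P P' hA hB Φ

open Classical in
/-- indicator -/
noncomputable def io (p : Prop) : ℝ := if p then 1 else 0

lemma io01 (p : Prop) : io p = 0 ∨ io p = 1 := by
  unfold io
  split_ifs
  · exact Or.inr rfl
  · exact Or.inl rfl

lemma io_sq (p : Prop) : io p * io p = io p := by
  rcases io01 p with h | h <;> rw [h] <;> norm_num

lemma io_nonneg (p : Prop) : 0 ≤ io p := by
  rcases io01 p with h | h <;> rw [h] <;> norm_num

lemma io_le (p : Prop) : io p ≤ 1 := by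
  rcases io01 p with h | h <;> rw [h] <;> norm_num

/-- pair moments -/
noncomputable def pm (k : ℕ) (p q : ℕ → ℕ → Prop) : ℝ :=
  bm X k (J := Bool) (fun b => bif b then q else p) (fun v => io (v false) * io (v true))

lemma bm_pair (k : ℕ) {J : Type} (P : J → ℕ → ℕ → Prop) (i j : J) :
    bm X k P (fun v => io (v i) * io (v j)) = pm X k (P i) (P j) := rfl

lemma pm_symm (k : ℕ) (p q : ℕ → ℕ → Prop) : pm X k p q = pm X k q p := by
  have h : pm X k q p = bm X k (J := Bool) (fun b => bif b then q else p)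
      (fun v => io (v true) * io (v false)) := rfl
  rw [h]
  unfold pm
  simp only [mul_comm]

/-- the density -/
noncomputable def den : ℝ := bm X 0 (J := Unit) (fun _ _ _ => False) (fun v => io (v ()))

lemma bm_single (k : ℕ) {J : Type} (P : J → ℕ → ℕ → Prop) (i : J) :
    bm X k P (fun v => io (v i)) = den X := by
  change bm X k (J := Unit) (fun _ => P i) (fun v => io (v ())) = den X
  refine bm_emb X (J := Unit) () (k := k) (l := 0) (fun _ => 0) ?_ (fun _ => P i)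
    (fun _ _ _ => False) ?_ ?_ _
  · refine ⟨Fin.elim0, ?_, fun b => b.elim0, fun a b => b.elim0⟩
    intro x
    exact x.elim0
  · intro j x y hx
    exact absurd hx (Nat.not_lt_zero _)
  · intro j x y _
    exact Iff.rfl

lemma pm_self (k : ℕ) (p : ℕ → ℕ → Prop) : pm X k p p = den X := by
  rw [← bm_single X k (J := Unit) (fun _ => p) ()]
  rw [← bm_pair X k (J := Unit) (fun _ => p) () ()]
  simp only [io_sq]

lemma den_eq : den X = X.D := by
  unfold den bm
  rw [itm_zero]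
  have h1 := X.E_loc (ι := Σ i : Fin 0, Fin ((Fin.elim0 : Fin 0 → ℕ) i)) (ι' := Fin 0)
    ⟨Fin.elim0, fun x => x.elim0⟩ () (J := Unit) (fun _ => bl Fin.elim0 (fun _ _ => False))
    (fun c _ j => Iff.rfl) (fun v => io (v ()))
  rw [h1]
  unfold Fam.D
  congr 1
  funext U
  have h2 : (fun c : Fin 2 → Fin 0 => bl Fin.elim0 (fun _ _ => False)
      (fun t => (⟨Fin.elim0, fun x => x.elim0⟩ :
        Fin 0 ↪ Σ i : Fin 0, Fin ((Fin.elim0 : Fin 0 → ℕ) i)) (c t)))
      = pt 0 (fun _ _ => True) := by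
    funext c
    exact (c 0).elim0
  unfold f io
  rw [h2]

end Pool.Agent.H39.BM
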