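import Mathlib
import Pool.Agent.H39.BM.Law

set_option autoImplicit false

/-!
# Exchangeability, spreading and positivity of block laws
-/

namespace Pool.Agent.H39.BM

open Finset Filter Topology Pool.Agent.TH7.DH Pool.Agent.TH635.BV

variable (X : Fam) {e₀ : Prop}

theorem pm_emb {k l : ℕ} (π : Fin k → ℕ) (hπ : Emb l π) (p q p' q' : ℕ → ℕ → Prop)
    (hp : ∀ x y : Fin k, π x < l → π y < l → (p x y ↔ p' (π x) (π y)))
    (hq : ∀ x y : Fin k, π x < l → π y < l → (q x y ↔ q' (π x) (π y)))
    (hB : ∀ x y : Fin k, (¬ π x < l ∨ ¬ π y < l) → (q x y ↔ p x y)) :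
    pm X k p q = pm X l p' q' := by
  unfold pm
  refine bm_emb X (J := Bool) false π hπ _ _ ?_ ?_ _
  · rintro (_ | _) x y hx hy
    · exact hp x y hx hy
    · exact hq x y hx hy
  · rintro (_ | _) x y h
    · exact Iff.rfl
    · exact hB x y h

lemma emb_mk {k l : ℕ} (π σ : ℕ → ℕ) (h1 : ∀ b, b < l → σ b < k)
    (h2 : ∀ a b, a < b → b < l → σ a < σ b) (h3 : ∀ b, b < l → π (σ b) = b)
    (h4 : ∀ a, a < k → π a < l → a ≤ σ (π a)) : Emb l (fun x : Fin k => π x) := by
  refine ⟨fun b => ⟨σ b, h1 b b.2⟩, ?_, ?_, ?_⟩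
  · intro a b hab
    exact h2 a b hab b.2
  · intro b
    exact h3 b b.2
  · intro a b hab
    have h5 := h4 a a.2 (by simp only at hab; rw [hab]; exact b.2)
    simp only at hab
    rw [hab] at h5
    exact h5

/-- the pattern is constantly `c` on the cells involving the position `z` -/
def Nul (c : Prop) (z : ℕ) (A : ℕ → ℕ → Prop) : Prop := ∀ x, (A z x ↔ c) ∧ (A x z ↔ c)

theorem pm_roles {k l : ℕ} (π : ℕ → ℕ) (hπ : Emb l (fun x : Fin k => π x))
    {A B : ℕ → ℕ → Prop} {z : ℕ} (hA : Nul e₀ z A) (hB : Nul e₀ z B) (ρ ρ' η η' : ℕ → ℕ)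
    (h1 : ∀ x, x < k → π x < l → ρ x = η (π x)) (h2 : ∀ x, x < k → ¬ π x < l → ρ x = z)
    (h1' : ∀ x, x < k → π x < l → ρ' x = η' (π x)) (h2' : ∀ x, x < k → ¬ π x < l → ρ' x = z) :
    pm X k (fun x y => A (ρ x) (ρ y)) (fun x y => B (ρ' x) (ρ' y))
      = pm X l (fun x y => A (η x) (η y)) (fun x y => B (η' x) (η' y)) := by
  refine pm_emb X (fun x : Fin k => π x) hπ _ _ _ _ ?_ ?_ ?_
  · intro x y hx hy
    rw [h1 x x.2 hx, h1 y y.2 hy]
  · intro x y hx hy
    rw [h1' x x.2 hx, h1' y y.2 hy]
  · rintro x y (h | h)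
    · rw [h2 x x.2 h, h2' x x.2 h]
      exact (hB _).1.trans (hA _).1.symm
    · rw [h2 y y.2 h, h2' y y.2 h]
      exact (hB _).2.trans (hA _).2.symm

theorem quad_nonneg (hX : X.Bad) (k : ℕ) {J : Type} [Fintype J] (P : J → ℕ → ℕ → Prop)
    (s : J → ℝ) (s₀ : ℝ) :
    0 ≤ s₀ ^ 2 + 2 * s₀ * (∑ i, s i) * den X + ∑ i, ∑ j, s i * s j * pm X k (P i) (P j) := by
  have h1 := bm_mono X hX k P (fun _ => 0) (fun v => (s₀ + ∑ i, s i * io (v i)) ^ 2)
    (fun v _ => sq_nonneg _)
  rw [bm_const] at h1
  have h2 : (fun v : J → Prop => (s₀ + ∑ i, s i * io (v i)) ^ 2)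
      = fun v => (s₀ ^ 2 + ∑ i, (2 * s₀ * s i) * io (v i))
        + ∑ i, ∑ j, (s i * s j) * (io (v i) * io (v j)) := by
    funext v
    have h3 : (∑ i, s i * io (v i)) * (∑ j, s j * io (v j))
        = ∑ i, ∑ j, (s i * s j) * (io (v i) * io (v j)) := by
      rw [Finset.sum_mul_sum]
      refine Finset.sum_congr rfl fun i _ => Finset.sum_congr rfl fun j _ => ?_
      ring
    rw [← h3]
    have h4 : ∑ i, (2 * s₀ * s i) * io (v i) = 2 * s₀ * ∑ i, s i * io (v i) := by
      rw [Finset.mul_sum]
      refine Finset.sum_congr rfl fun i _ => ?_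
      ring
    rw [h4]
    ring
  rw [h2, bm_add, bm_add, bm_const, bm_sum, bm_sum] at h1
  have h5 : ∀ i, bm X k P (fun v => (2 * s₀ * s i) * io (v i)) = (2 * s₀ * s i) * den X := by
    intro i
    rw [bm_smul, bm_single]
  have h6 : ∀ i, bm X k P (fun v => ∑ j, (s i * s j) * (io (v i) * io (v j)))
      = ∑ j, s i * s j * pm X k (P i) (P j) := by
    intro i
    rw [bm_sum]
    refine Finset.sum_congr rfl fun j _ => ?_
    rw [bm_smul, bm_pair]
  simp only [h5, h6] at h1
  have h7 : ∑ i, (2 * s₀ * s i) * den X = 2 * s₀ * (∑ i, s i) * den X := by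
    rw [Finset.mul_sum, Finset.sum_mul]
  rw [h7] at h1
  exact h1

lemma pm_nonneg (hX : X.Bad) (k : ℕ) (p q : ℕ → ℕ → Prop) : 0 ≤ pm X k p q := by
  have h1 := bm_mono X hX k (J := Bool) (fun b => bif b then q else p) (fun _ => 0)
    (fun v => io (v false) * io (v true)) (fun v _ => mul_nonneg (io_nonneg _) (io_nonneg _))
  rwa [bm_const] at h1

lemma pm_le (hX : X.Bad) (k : ℕ) (p q : ℕ → ℕ → Prop) : pm X k p q ≤ 1 := by
  have h1 := bm_mono X hX k (J := Bool) (fun b => bif b then q else p)
    (fun v => io (v false) * io (v true)) (fun _ => 1)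
    (fun v _ => mul_le_one₀ (io_le _) (io_nonneg _) (io_le _))
  rwa [bm_const] at h1

lemma den_le (hX : X.Bad) : den X ≤ 1 := by
  rw [← pm_self X 0 (fun _ _ => False)]
  exact pm_le X hX _ _ _

lemma den_nonneg (hX : X.Bad) : 0 ≤ den X := by
  rw [← pm_self X 0 (fun _ _ => False)]
  exact pm_nonneg X hX _ _ _

/-- two families of equally correlated events have the same correlations with a further event -/
theorem l2 (hX : X.Bad) {c α β : ℝ}
    (h : ∀ M : ℕ, ∃ (k : ℕ) (P : Option (Bool × Fin M) → ℕ → ℕ → Prop),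
      (∀ x y, x ≠ y → pm X k (P (some x)) (P (some y)) = c) ∧
      (∀ i, pm X k (P (some (false, i))) (P none) = α) ∧
      (∀ i, pm X k (P (some (true, i))) (P none) = β)) : α = β := by
  classical
  have key : ∀ M : ℕ, (M : ℝ) ^ 2 * (α - β) ^ 2 ≤ 2 * M * (1 - c) := by
    intro M
    obtain ⟨k, P, h1, h2, h3⟩ := h M
    have hq := quad_nonneg X hX k P
      (fun o => match o with
        | none => - (M * (α - β))
        | some (false, _) => 1
        | some (true, _) => -1) 0
    simp only [Fintype.sum_option, Fintype.sum_prod_type, Fintype.sum_bool] at hq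
    have e1 : ∀ (b : Bool) (i : Fin M), ∑ j : Fin M, pm X k (P (some (b, i))) (P (some (b, j)))
        = den X + (M - 1) * c := by
      intro b i
      rw [← Finset.add_sum_erase _ _ (Finset.mem_univ i), pm_self]
      congr 1
      rw [Finset.sum_congr rfl (g := fun _ => c)
        (fun j hj => h1 _ _ (by
          intro he
          exact (Finset.ne_of_mem_erase hj) (by simpa using he.symm)))]
      rw [Finset.sum_const, Finset.card_erase_of_mem (Finset.mem_univ i), Finset.card_univ,
        Fintype.card_fin, nsmul_eq_mul]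
      have : 1 ≤ M := by
        have := i.2
        omega
      push_cast [Nat.cast_sub this]
      ring
    have e2 : ∀ (b b' : Bool) (hb : b ≠ b') (i : Fin M),
        ∑ j : Fin M, pm X k (P (some (b, i))) (P (some (b', j))) = M * c := by
      intro b b' hb i
      rw [Finset.sum_congr rfl (g := fun _ => c) (fun j _ => h1 _ _ (by
        intro he
        exact hb (congrArg Prod.fst he)))]
      simp
    have e3 : ∀ i, pm X k (P none) (P (some (false, i))) = α := fun i => by
      rw [pm_symm]
      exact h2 i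
    have e4 : ∀ i, pm X k (P none) (P (some (true, i))) = β := fun i => by
      rw [pm_symm]
      exact h3 i
    simp only [h2, h3, e3, e4, pm_self] at hq
    have f1 := e1 true
    have f2 := e1 false
    have f3 := e2 true false (by decide)
    have f4 := e2 false true (by decide)
    simp only [one_mul, mul_one, neg_mul, mul_neg, neg_neg, Finset.sum_add_distrib,
      Finset.sum_neg_distrib, Finset.sum_const, Finset.card_univ, Fintype.card_fin, nsmul_eq_mul,
      f1, f2, f3, f4] at hq
    have hd := den_le X hX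
    have hd0 := den_nonneg X hX
    have hM : (0 : ℝ) ≤ M := Nat.cast_nonneg M
    nlinarith [mul_le_mul_of_nonneg_left hd (mul_nonneg (mul_nonneg hM hM) (sq_nonneg (α - β))),
      mul_le_mul_of_nonneg_left hd hM]
  by_contra hne
  have h0 : 0 < (α - β) ^ 2 := by
    have : α - β ≠ 0 := sub_ne_zero.2 hne
    positivity
  have hc : 0 ≤ c := by
    obtain ⟨k, P, h1, -⟩ := h 2
    rw [← h1 (false, 0) (false, 1) (by decide)]
    exact pm_nonneg X hX _ _ _
  obtain ⟨M, hM⟩ := exists_nat_gt (2 / (α - β) ^ 2)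
  have hM0 : (0 : ℝ) < M := lt_of_le_of_lt (by positivity) hM
  have h5 := key M
  rw [div_lt_iff₀ h0] at hM
  nlinarith [mul_lt_mul_of_pos_left hM hM0]

/-- interchange of the positions `r` and `r + 1` -/
def sw (r x : ℕ) : ℕ := if x = r then r + 1 else if x = r + 1 then r else x

lemma sw_spec (r x : ℕ) : (x = r ∧ sw r x = r + 1) ∨ (x = r + 1 ∧ sw r x = r) ∨
    (x ≠ r ∧ x ≠ r + 1 ∧ sw r x = x) := by
  unfold sw
  split_ifs <;> omega

/-- identification of the positions `r` and `r + 1` -/
def tw (r x : ℕ) : ℕ := if x = r + 1 then r else x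

lemma tw_spec (r x : ℕ) : (x = r + 1 ∧ tw r x = r) ∨ (x ≠ r + 1 ∧ tw r x = x) := by
  unfold tw
  split_ifs <;> omega

/-- the pattern seen from a window of `m` blocks, at the block `i` -/
def rw₁ (r m i x : ℕ) : ℕ :=
  if x < r then x else if x < r + m then (if x = r + i then r else r + 1) else x - m + 2

lemma rw₁_spec (r m i x : ℕ) : (x < r ∧ rw₁ r m i x = x) ∨
    (r ≤ x ∧ x < r + m ∧ x = r + i ∧ rw₁ r m i x = r) ∨
    (r ≤ x ∧ x < r + m ∧ x ≠ r + i ∧ rw₁ r m i x = r + 1) ∨
    (r + m ≤ x ∧ rw₁ r m i x = x - m + 2) := by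
  unfold rw₁
  split_ifs <;> omega

/-- the map of `t + m` blocks onto `t + 2` blocks keeping the blocks `i < j` of the window -/
def wπ (t r m i j x : ℕ) : ℕ :=
  if x < r then x else if x < r + m then
    (if x = r + i then r else if x = r + j then r + 1 else t + 2) else x - m + 2

lemma wπ_spec (t r m i j x : ℕ) : (x < r ∧ wπ t r m i j x = x) ∨
    (r ≤ x ∧ x < r + m ∧ x = r + i ∧ wπ t r m i j x = r) ∨
    (r ≤ x ∧ x < r + m ∧ x ≠ r + i ∧ x = r + j ∧ wπ t r m i j x = r + 1) ∨
    (r ≤ x ∧ x < r + m ∧ x ≠ r + i ∧ x ≠ r + j ∧ wπ t r m i j x = t + 2) ∨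
    (r + m ≤ x ∧ wπ t r m i j x = x - m + 2) := by
  unfold wπ
  split_ifs <;> omega

/-- the section -/
def wσ (r m i j b : ℕ) : ℕ :=
  if b < r then b else if b = r then r + i else if b = r + 1 then r + j else b - 2 + m

lemma wσ_spec (r m i j b : ℕ) : (b < r ∧ wσ r m i j b = b) ∨ (b = r ∧ wσ r m i j b = r + i) ∨
    (b = r + 1 ∧ wσ r m i j b = r + j) ∨ (r + 2 ≤ b ∧ wσ r m i j b = b - 2 + m) := by
  unfold wσ
  split_ifs <;> omega

lemma wπ_emb {t r m i j : ℕ} (hr : r ≤ t) (hij : i < j) (hj : j < m) :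
    Emb (t + 2) (fun x : Fin (t + m) => wπ t r m i j x) := by
  refine emb_mk (wπ t r m i j) (wσ r m i j) ?_ ?_ ?_ ?_
  · intro b hb
    have := wσ_spec r m i j b
    omega
  · intro a b hab hb
    have := wσ_spec r m i j a
    have := wσ_spec r m i j b
    omega
  · intro b hb
    have h1 := wσ_spec r m i j b
    have h2 := wπ_spec t r m i j (wσ r m i j b)
    omega
  · intro a ha h
    have h1 := wπ_spec t r m i j a
    have h2 := wσ_spec r m i j (wπ t r m i j a)
    omega

theorem pm_window {t r m i j : ℕ} (hr : r ≤ t) (hij : i < j) (hj : j < m)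
    {A B : ℕ → ℕ → Prop} (hA : Nul e₀ (r + 1) A) (hB : Nul e₀ (r + 1) B) :
    pm X (t + m) (fun x y => A (rw₁ r m i x) (rw₁ r m i y))
      (fun x y => B (rw₁ r m j x) (rw₁ r m j y))
      = pm X (t + 2) A (fun x y => B (sw r x) (sw r y)) := by
  refine pm_roles X (wπ t r m i j) (wπ_emb hr hij hj) hA hB (rw₁ r m i) (rw₁ r m j) id (sw r)
    ?_ ?_ ?_ ?_
  · intro x hx hπ
    have h1 := wπ_spec t r m i j x
    have h2 := rw₁_spec r m i x
    simp only [id]
    omega
  · intro x hx hπ
    have h1 := wπ_spec t r m i j x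
    have h2 := rw₁_spec r m i x
    omega
  · intro x hx hπ
    have h1 := wπ_spec t r m i j x
    have h2 := rw₁_spec r m j x
    have h3 := sw_spec r (wπ t r m i j x)
    omega
  · intro x hx hπ
    have h1 := wπ_spec t r m i j x
    have h2 := rw₁_spec r m j x
    omega

/-- exchangeability -/
theorem pm_swap (hX : X.Bad) {t r : ℕ} (hr : r ≤ t) {A B : ℕ → ℕ → Prop} (hA : Nul e₀ (r + 1) A)
    (hB : Nul e₀ (r + 1) B) :
    pm X (t + 2) A (fun x y => B (sw r x) (sw r y))
      = pm X (t + 2) B (fun x y => A (sw r x) (sw r y)) := by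
  refine l2 X hX (c := pm X (t + 2) A (fun x y => A (sw r x) (sw r y))) fun M => ?_
  set pos : Bool × Fin M → ℕ := fun b => if b.1 then b.2.1 + M + 1 else b.2.1 with hpos
  have hp : ∀ b : Bool × Fin M, (b.1 = true ∧ pos b = b.2.1 + M + 1) ∨
      (b.1 = false ∧ pos b = b.2.1) := by
    rintro ⟨_ | _, i⟩
    · right
      simp [hpos]
    · left
      simp [hpos]
  have hlt : ∀ b, pos b < 2 * M + 1 := by
    intro b
    have := b.2.2
    rcases hp b with h | h <;> omega
  refine ⟨t + (2 * M + 1), fun o => match o with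
    | none => fun x y => B (rw₁ r (2 * M + 1) M x) (rw₁ r (2 * M + 1) M y)
    | some b => fun x y => A (rw₁ r (2 * M + 1) (pos b) x) (rw₁ r (2 * M + 1) (pos b) y),
    ?_, ?_, ?_⟩
  · intro b b' hne
    have hpne : pos b ≠ pos b' := by
      intro he
      refine hne ?_
      have h1 := b.2.2
      have h2 := b'.2.2
      refine Prod.ext ?_ (Fin.ext ?_)
      · rcases hp b with h | h <;> rcases hp b' with h' | h' <;> first
          | (exfalso; omega)
          | rw [h.1, h'.1]
      · rcases hp b with h | h <;> rcases hp b' with h' | h' <;> omega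
    rcases Nat.lt_or_gt_of_ne hpne with h | h
    · exact pm_window X hr h (hlt _) hA hA
    · rw [pm_symm]
      exact pm_window X hr h (hlt _) hA hA
  · intro i
    have h1 : pos (false, i) < M := by
      have := i.2
      rcases hp (false, i) with h | h
      · exact absurd h.1 (by simp)
      · rw [h.2]
        exact this
    exact pm_window X hr h1 (by omega) hA hB
  · intro i
    have h1 : M < pos (true, i) := by
      rcases hp (true, i) with h | h
      · rw [h.2]
        omega
      · exact absurd h.1 (by simp)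
    rw [pm_symm]
    exact pm_window X hr h1 (hlt _) hB hA

/-- positivity -/
theorem pm_psd (hX : X.Bad) {t r : ℕ} (hr : r ≤ t) {A : Type} [Fintype A]
    (F : A → ℕ → ℕ → Prop) (hF : ∀ a, Nul e₀ (r + 1) (F a)) (s : A → ℝ) (s₀ : ℝ) :
    0 ≤ s₀ ^ 2 + 2 * s₀ * (∑ a, s a) * den X
      + ∑ a, ∑ b, s a * s b * pm X (t + 2) (F a) (fun x y => F b (sw r x) (sw r y)) := by
  classical
  set K : A → A → ℝ := fun a b => pm X (t + 2) (F a) (fun x y => F b (sw r x) (sw r y)) with hK
  set Q : ℝ := ∑ a, ∑ b, s a * s b * K a b with hQ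
  set C : ℝ := ∑ a, ∑ b, |s a * s b| with hC
  have key : ∀ M : ℕ, 0 ≤ (M : ℝ) ^ 2 * (s₀ ^ 2 + 2 * s₀ * (∑ a, s a) * den X) + M * C
      + (M ^ 2 - M) * Q := by
    intro M
    have hq := quad_nonneg X hX (t + M)
      (fun b : Fin M × A => fun x y => F b.2 (rw₁ r M b.1 x) (rw₁ r M b.1 y))
      (fun b => s b.2) (M * s₀)
    simp only [Fintype.sum_prod_type] at hq
    set G : Fin M → Fin M → ℝ := fun i j => ∑ a, ∑ b, s a * s b *
      pm X (t + M) (fun x y => F a (rw₁ r M i x) (rw₁ r M i y))
        (fun x y => F b (rw₁ r M j x) (rw₁ r M j y)) with hG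
    have e1 : ∑ i : Fin M, ∑ a, ∑ j : Fin M, ∑ b, s a * s b *
      pm X (t + M) (fun x y => F a (rw₁ r M i x) (rw₁ r M i y))
        (fun x y => F b (rw₁ r M j x) (rw₁ r M j y)) = ∑ i : Fin M, ∑ j : Fin M, G i j := by
      refine Finset.sum_congr rfl fun i _ => ?_
      rw [Finset.sum_comm]
    have e2 : ∀ i j, i ≠ j → G i j = Q := by
      intro i j hij
      rcases lt_or_gt_of_ne hij with h | h
      · simp only [hG, hQ, hK]
        refine Finset.sum_congr rfl fun a _ => Finset.sum_congr rfl fun b _ => ?_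
        rw [pm_window X hr (by exact_mod_cast h) j.2 (hF a) (hF b)]
      · simp only [hG, hQ, hK]
        rw [Finset.sum_comm]
        refine Finset.sum_congr rfl fun a _ => Finset.sum_congr rfl fun b _ => ?_
        rw [pm_symm, pm_window X hr (by exact_mod_cast h) i.2 (hF a) (hF b)]
        ring
    have e3 : ∀ i, G i i ≤ C := by
      intro i
      simp only [hG, hC]
      refine Finset.sum_le_sum fun a _ => Finset.sum_le_sum fun b _ => ?_
      refine (le_abs_self _).trans ?_
      rw [abs_mul]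
      refine mul_le_of_le_one_right (abs_nonneg _) ?_
      rw [abs_le]
      have h1 := pm_nonneg X hX (t + M) (fun x y => F a (rw₁ r M i x) (rw₁ r M i y))
        (fun x y => F b (rw₁ r M i x) (rw₁ r M i y))
      have h2 := pm_le X hX (t + M) (fun x y => F a (rw₁ r M i x) (rw₁ r M i y))
        (fun x y => F b (rw₁ r M i x) (rw₁ r M i y))
      constructor <;> linarith
    have e4 : ∀ i : Fin M, ∑ j : Fin M, G i j ≤ C + (M - 1) * Q := by
      intro i
      rw [← Finset.add_sum_erase _ _ (Finset.mem_univ i)]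
      refine add_le_add (e3 i) (le_of_eq ?_)
      rw [Finset.sum_congr rfl (g := fun _ => Q)
        (fun j hj => e2 i j (Finset.ne_of_mem_erase hj).symm)]
      rw [Finset.sum_const, Finset.card_erase_of_mem (Finset.mem_univ i), Finset.card_univ,
        Fintype.card_fin, nsmul_eq_mul]
      have : 1 ≤ M := by
        have := i.2
        omega
      push_cast [Nat.cast_sub this]
      ring
    have e5 : ∑ i : Fin M, ∑ j : Fin M, G i j ≤ M * (C + (M - 1) * Q) := by
      refine (Finset.sum_le_sum fun i _ => e4 i).trans (le_of_eq ?_)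
      rw [Finset.sum_const, Finset.card_univ, Fintype.card_fin, nsmul_eq_mul]
    have e6 : ∑ _i : Fin M, ∑ a, s a = M * ∑ a, s a := by simp
    rw [e1, e6] at hq
    calc (0 : ℝ) ≤ _ := hq
      _ ≤ (M * s₀) ^ 2 + 2 * (M * s₀) * (M * ∑ a, s a) * den X + M * (C + (M - 1) * Q) := by
        linarith
      _ = _ := by ring
  change 0 ≤ s₀ ^ 2 + 2 * s₀ * (∑ a, s a) * den X + Q
  by_contra hneg
  push Not at hneg
  set W : ℝ := s₀ ^ 2 + 2 * s₀ * (∑ a, s a) * den X + Q with hW
  obtain ⟨M, hM⟩ := exists_nat_gt (max 1 ((C - Q) / (-W)))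
  have hM1 : (1 : ℝ) < M := lt_of_le_of_lt (le_max_left _ _) hM
  have hM2 : (C - Q) / (-W) < M := lt_of_le_of_lt (le_max_right _ _) hM
  rw [div_lt_iff₀ (by linarith)] at hM2
  have h1 := key M
  have h2 : (M : ℝ) ^ 2 * (s₀ ^ 2 + 2 * s₀ * (∑ a, s a) * den X) + M * C + (M ^ 2 - M) * Q
      = M * (M * W + (C - Q)) := by
    rw [hW]
    ring
  rw [h2] at h1
  have h3 : (M : ℝ) * W + (C - Q) < 0 := by linarith
  have h4 := mul_neg_of_pos_of_neg (show (0 : ℝ) < M by linarith) h3
  linarith

/-! ### Spreading -/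

/-- the block `r` -/
def ra (r m x : ℕ) : ℕ :=
  if x ≤ r then x else if x < r + 1 + m then r + 1 else x - m + 1

lemma ra_spec (r m x : ℕ) : (x ≤ r ∧ ra r m x = x) ∨
    (r < x ∧ x < r + 1 + m ∧ ra r m x = r + 1) ∨ (r + 1 + m ≤ x ∧ ra r m x = x - m + 1) := by
  unfold ra
  split_ifs <;> omega

/-- the first `i + 1` blocks of the window, with or without the block `r` -/
def rb (r m : ℕ) (b : Bool) (i x : ℕ) : ℕ :=
  if x < r then x else if x = r then (if b then r else r + 1) else
    if x ≤ r + 1 + i then r else if x < r + 1 + m then r + 1 else x - m + 1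

lemma rb_true (r m i x : ℕ) (hi : i < m) : (x < r ∧ rb r m true i x = x) ∨
    (x = r ∧ rb r m true i x = r) ∨ (r < x ∧ x ≤ r + 1 + i ∧ rb r m true i x = r) ∨
    (r + 1 + i < x ∧ x < r + 1 + m ∧ rb r m true i x = r + 1) ∨
    (r + 1 + m ≤ x ∧ rb r m true i x = x - m + 1) := by
  unfold rb
  simp only [if_true]
  split_ifs <;> omega

lemma rb_false (r m i x : ℕ) (hi : i < m) : (x < r ∧ rb r m false i x = x) ∨
    (x = r ∧ rb r m false i x = r + 1) ∨ (r < x ∧ x ≤ r + 1 + i ∧ rb r m false i x = r) ∨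
    (r + 1 + i < x ∧ x < r + 1 + m ∧ rb r m false i x = r + 1) ∨
    (r + 1 + m ≤ x ∧ rb r m false i x = x - m + 1) := by
  unfold rb
  simp only [Bool.false_eq_true, if_false]
  split_ifs <;> omega

/-- general map: block `r` goes to `e`, the first window blocks up to `i` go to `r` if `c`,
the window blocks up to `j` go to `r + 1`, the other window blocks are dropped; blocks `≤ i` are
sent to `u` -/
def sπ (t r m e u i j x : ℕ) : ℕ :=
  if x < r then x else if x = r then e else if x ≤ r + 1 + i then u else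
    if x ≤ r + 1 + j then r + 1 else if x < r + 1 + m then t + 2 else x - m + 1

lemma sπ_spec (t r m e u i j x : ℕ) (hij : i ≤ j) (hj : j < m) : (x < r ∧ sπ t r m e u i j x = x) ∨
    (x = r ∧ sπ t r m e u i j x = e) ∨ (r < x ∧ x ≤ r + 1 + i ∧ sπ t r m e u i j x = u) ∨
    (r + 1 + i < x ∧ x ≤ r + 1 + j ∧ sπ t r m e u i j x = r + 1) ∨
    (r + 1 + j < x ∧ x < r + 1 + m ∧ sπ t r m e u i j x = t + 2) ∨
    (r + 1 + m ≤ x ∧ sπ t r m e u i j x = x - m + 1) := by
  unfold sπ
  split_ifs <;> omega

/-- section -/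
def sσ (r m v w b : ℕ) : ℕ :=
  if b < r then b else if b = r then v else if b = r + 1 then w else b - 1 + m

lemma sσ_spec (r m v w b : ℕ) : (b < r ∧ sσ r m v w b = b) ∨ (b = r ∧ sσ r m v w b = v) ∨
    (b = r + 1 ∧ sσ r m v w b = w) ∨ (r + 2 ≤ b ∧ sσ r m v w b = b - 1 + m) := by
  unfold sσ
  split_ifs <;> omega

/-- correlation of the block `r` with an initial part of the window -/
lemma sπ_emb₁ {t r m j : ℕ} (hr : r ≤ t) (hj : j < m) :
    Emb (t + 2) (fun x : Fin (t + 1 + m) => sπ t r m r (r + 1) j j x) := by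
  refine emb_mk (sπ t r m r (r + 1) j j) (sσ r m r (r + 1 + j)) ?_ ?_ ?_ ?_
  · intro b hb
    have := sσ_spec r m r (r + 1 + j) b
    omega
  · intro a b hab hb
    have := sσ_spec r m r (r + 1 + j) a
    have := sσ_spec r m r (r + 1 + j) b
    omega
  · intro b hb
    have h1 := sσ_spec r m r (r + 1 + j) b
    have h2 := sπ_spec t r m r (r + 1) j j (sσ r m r (r + 1 + j) b) le_rfl hj
    omega
  · intro a ha h
    have h1 := sπ_spec t r m r (r + 1) j j a le_rfl hj
    have h2 := sσ_spec r m r (r + 1 + j) (sπ t r m r (r + 1) j j a)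
    omega

/-- correlation of two initial parts of the window -/
lemma sπ_emb₂ {t r m e i j : ℕ} (hr : r ≤ t) (hij : i < j) (hj : j < m)
    (he : e = r ∨ e = r + 1 ∨ e = t + 2) :
    Emb (t + 2) (fun x : Fin (t + 1 + m) => sπ t r m e r i j x) := by
  refine emb_mk (sπ t r m e r i j) (sσ r m (r + 1 + i) (r + 1 + j)) ?_ ?_ ?_ ?_
  · intro b hb
    have := sσ_spec r m (r + 1 + i) (r + 1 + j) b
    omega
  · intro a b hab hb
    have := sσ_spec r m (r + 1 + i) (r + 1 + j) a
    have := sσ_spec r m (r + 1 + i) (r + 1 + j) b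
    omega
  · intro b hb
    have h1 := sσ_spec r m (r + 1 + i) (r + 1 + j) b
    have h2 := sπ_spec t r m e r i j (sσ r m (r + 1 + i) (r + 1 + j) b) hij.le hj
    omega
  · intro a ha h
    have h1 := sπ_spec t r m e r i j a hij.le hj
    have h2 := sσ_spec r m (r + 1 + i) (r + 1 + j) (sπ t r m e r i j a)
    omega

theorem pm_s₁ {t r m j : ℕ} (hr : r ≤ t) (hj : j < m) {A B : ℕ → ℕ → Prop}
    (hA : Nul e₀ (r + 1) A) (hB : Nul e₀ (r + 1) B) :
    pm X (t + 1 + m) (fun x y => A (ra r m x) (ra r m y))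
      (fun x y => B (rb r m false j x) (rb r m false j y))
      = pm X (t + 2) A (fun x y => B (sw r x) (sw r y)) := by
  refine pm_roles X (sπ t r m r (r + 1) j j) (sπ_emb₁ hr hj) hA hB (ra r m) (rb r m false j) id
    (sw r) ?_ ?_ ?_ ?_
  · intro x hx hπ
    have h1 := sπ_spec t r m r (r + 1) j j x le_rfl hj
    have h2 := ra_spec r m x
    simp only [id]
    omega
  · intro x hx hπ
    have h1 := sπ_spec t r m r (r + 1) j j x le_rfl hj
    have h2 := ra_spec r m x
    omega
  · intro x hx hπ
    have h1 := sπ_spec t r m r (r + 1) j j x le_rfl hj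
    have h2 := rb_false r m j x hj
    have h3 := sw_spec r (sπ t r m r (r + 1) j j x)
    omega
  · intro x hx hπ
    have h1 := sπ_spec t r m r (r + 1) j j x le_rfl hj
    have h2 := rb_false r m j x hj
    omega

theorem pm_s₂ {t r m j : ℕ} (hr : r ≤ t) (hj : j < m) {A B : ℕ → ℕ → Prop}
    (hA : Nul e₀ (r + 1) A) (hB : Nul e₀ (r + 1) B) :
    pm X (t + 1 + m) (fun x y => A (ra r m x) (ra r m y))
      (fun x y => B (rb r m true j x) (rb r m true j y))
      = pm X (t + 2) A (fun x y => B (tw r x) (tw r y)) := by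
  refine pm_roles X (sπ t r m r (r + 1) j j) (sπ_emb₁ hr hj) hA hB (ra r m) (rb r m true j) id
    (tw r) ?_ ?_ ?_ ?_
  · intro x hx hπ
    have h1 := sπ_spec t r m r (r + 1) j j x le_rfl hj
    have h2 := ra_spec r m x
    simp only [id]
    omega
  · intro x hx hπ
    have h1 := sπ_spec t r m r (r + 1) j j x le_rfl hj
    have h2 := ra_spec r m x
    omega
  · intro x hx hπ
    have h1 := sπ_spec t r m r (r + 1) j j x le_rfl hj
    have h2 := rb_true r m j x hj
    have h3 := tw_spec r (sπ t r m r (r + 1) j j x)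
    omega
  · intro x hx hπ
    have h1 := sπ_spec t r m r (r + 1) j j x le_rfl hj
    have h2 := rb_true r m j x hj
    omega

theorem pm_s₃ {t r m i j : ℕ} (hr : r ≤ t) (hij : i < j) (hj : j < m) {B : ℕ → ℕ → Prop}
    (hB : Nul e₀ (r + 1) B) (b b' : Bool) (hb : b = true → b' = true) :
    pm X (t + 1 + m) (fun x y => B (rb r m b i x) (rb r m b i y))
      (fun x y => B (rb r m b' j x) (rb r m b' j y))
      = pm X (t + 2) B (fun x y => B (tw r x) (tw r y)) := by
  set e := if b then r else if b' then r + 1 else t + 2 with he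
  have he' : e = r ∨ e = r + 1 ∨ e = t + 2 := by
    rw [he]
    split_ifs <;> omega
  refine pm_roles X (sπ t r m e r i j) (sπ_emb₂ hr hij hj he') hB hB (rb r m b i) (rb r m b' j) id
    (tw r) ?_ ?_ ?_ ?_
  · intro x hx hπ
    have h1 := sπ_spec t r m e r i j x hij.le hj
    simp only [id]
    rcases b with _ | _ <;> rcases b' with _ | _
    · have h2 := rb_false r m i x (by omega)
      simp only [Bool.false_eq_true, if_false] at he
      omega
    · have h2 := rb_false r m i x (by omega)
      simp only [Bool.false_eq_true, if_false, if_true] at he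
      omega
    · exact absurd (hb rfl) (by decide)
    · have h2 := rb_true r m i x (by omega)
      simp only [if_true] at he
      omega
  · intro x hx hπ
    have h1 := sπ_spec t r m e r i j x hij.le hj
    rcases b with _ | _ <;> rcases b' with _ | _
    · have h2 := rb_false r m i x (by omega)
      simp only [Bool.false_eq_true, if_false] at he
      omega
    · have h2 := rb_false r m i x (by omega)
      simp only [Bool.false_eq_true, if_false, if_true] at he
      omega
    · exact absurd (hb rfl) (by decide)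
    · have h2 := rb_true r m i x (by omega)
      simp only [if_true] at he
      omega
  · intro x hx hπ
    have h1 := sπ_spec t r m e r i j x hij.le hj
    have h3 := tw_spec r (sπ t r m e r i j x)
    rcases b with _ | _ <;> rcases b' with _ | _
    · have h2 := rb_false r m j x hj
      simp only [Bool.false_eq_true, if_false] at he
      omega
    · have h2 := rb_true r m j x hj
      simp only [Bool.false_eq_true, if_false, if_true] at he
      omega
    · exact absurd (hb rfl) (by decide)
    · have h2 := rb_true r m j x hj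
      simp only [if_true] at he
      omega
  · intro x hx hπ
    have h1 := sπ_spec t r m e r i j x hij.le hj
    rcases b with _ | _ <;> rcases b' with _ | _
    · have h2 := rb_false r m j x hj
      simp only [Bool.false_eq_true, if_false] at he
      omega
    · have h2 := rb_true r m j x hj
      simp only [Bool.false_eq_true, if_false, if_true] at he
      omega
    · exact absurd (hb rfl) (by decide)
    · have h2 := rb_true r m j x hj
      simp only [if_true] at he
      omega

/-- spreading -/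
theorem pm_spread (hX : X.Bad) {t r : ℕ} (hr : r ≤ t) {A B : ℕ → ℕ → Prop}
    (hA : Nul e₀ (r + 1) A) (hB : Nul e₀ (r + 1) B) :
    pm X (t + 2) A (fun x y => B (sw r x) (sw r y))
      = pm X (t + 2) A (fun x y => B (tw r x) (tw r y)) := by
  refine l2 X hX (c := pm X (t + 2) B (fun x y => B (tw r x) (tw r y))) fun M => ?_
  set pos : Bool × Fin M → ℕ := fun b => if b.1 then b.2.1 + M else b.2.1 with hpos
  have hp : ∀ b : Bool × Fin M, (b.1 = true ∧ pos b = b.2.1 + M) ∨
      (b.1 = false ∧ pos b = b.2.1) := by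
    rintro ⟨_ | _, i⟩
    · right
      simp [hpos]
    · left
      simp [hpos]
  have hlt : ∀ b, pos b < 2 * M := by
    intro b
    have := b.2.2
    rcases hp b with h | h <;> omega
  have main : ∀ b b' : Bool × Fin M, pos b < pos b' →
      pm X (t + 1 + 2 * M) (fun x y => B (rb r (2 * M) b.1 (pos b) x) (rb r (2 * M) b.1 (pos b) y))
        (fun x y => B (rb r (2 * M) b'.1 (pos b') x) (rb r (2 * M) b'.1 (pos b') y))
      = pm X (t + 2) B (fun x y => B (tw r x) (tw r y)) := by
    intro b b' h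
    refine pm_s₃ X hr h (hlt _) hB b.1 b'.1 fun hb => ?_
    have h1 := b.2.2
    have h2 := b'.2.2
    rcases hp b with h3 | h3
    · rcases hp b' with h4 | h4
      · exact h4.1
      · exfalso
        omega
    · exact absurd (h3.1.symm.trans hb) (by decide)
  refine ⟨t + 1 + 2 * M, fun o => match o with
    | none => fun x y => A (ra r (2 * M) x) (ra r (2 * M) y)
    | some b => fun x y => B (rb r (2 * M) b.1 (pos b) x) (rb r (2 * M) b.1 (pos b) y),
    ?_, ?_, ?_⟩
  · intro b b' hne
    have hpne : pos b ≠ pos b' := by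
      intro he
      refine hne ?_
      have h1 := b.2.2
      have h2 := b'.2.2
      refine Prod.ext ?_ (Fin.ext ?_)
      · rcases hp b with h | h <;> rcases hp b' with h' | h' <;> first
          | (exfalso; omega)
          | rw [h.1, h'.1]
      · rcases hp b with h | h <;> rcases hp b' with h' | h' <;> omega
    rcases Nat.lt_or_gt_of_ne hpne with h | h
    · exact main b b' h
    · rw [pm_symm]
      exact main b' b h
  · intro i
    rw [pm_symm]
    exact pm_s₁ X hr (hlt (false, i)) hA hB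
  · intro i
    rw [pm_symm]
    exact pm_s₂ X hr (hlt (true, i)) hA hB

end Pool.Agent.H39.BM
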