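import Mathlib
import Pool.Agent.H39.BM.Avg

set_option autoImplicit false

/-!
# Pair moments averaged over a family and its family of complements
-/

namespace Pool.Agent.H39.BM

open Finset Filter Topology Pool.Agent.TH7.DH Pool.Agent.TH635.BV

variable (X : Fam)

/-- the complementary pattern -/
def cp (p : ℕ → ℕ → Prop) : ℕ → ℕ → Prop := fun x y => ¬ p x y

lemma cp_cp (p : ℕ → ℕ → Prop) : cp (cp p) = p := by
  funext x y
  exact propext not_not

/-- the symmetrized pair moment -/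
noncomputable def sm (k : ℕ) (p q : ℕ → ℕ → Prop) : ℝ :=
  (pm X k p q + pm X k (cp p) (cp q)) / 2

lemma sm_symm (k : ℕ) (p q : ℕ → ℕ → Prop) : sm X k p q = sm X k q p := by
  unfold sm
  rw [pm_symm X k p q, pm_symm X k (cp p) (cp q)]

lemma sm_cp (k : ℕ) (p q : ℕ → ℕ → Prop) : sm X k (cp p) (cp q) = sm X k p q := by
  unfold sm
  rw [cp_cp, cp_cp, add_comm]

lemma sm_self (k : ℕ) (p : ℕ → ℕ → Prop) : sm X k p p = den X := by
  unfold sm
  rw [pm_self, pm_self]
  ring

theorem sm_emb {k l : ℕ} (π : Fin k → ℕ) (hπ : Emb l π) (p q p' q' : ℕ → ℕ → Prop)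
    (hp : ∀ x y : Fin k, π x < l → π y < l → (p x y ↔ p' (π x) (π y)))
    (hq : ∀ x y : Fin k, π x < l → π y < l → (q x y ↔ q' (π x) (π y)))
    (hB : ∀ x y : Fin k, (¬ π x < l ∨ ¬ π y < l) → (q x y ↔ p x y)) :
    sm X k p q = sm X l p' q' := by
  unfold sm
  rw [pm_emb X π hπ p q p' q' hp hq hB, pm_emb X π hπ (cp p) (cp q) (cp p') (cp q')
    (fun x y hx hy => not_congr (hp x y hx hy)) (fun x y hx hy => not_congr (hq x y hx hy))
    (fun x y h => not_congr (hB x y h))]

/-- moments depend only on the values of the patterns on the blocks -/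
theorem sm_congr {k : ℕ} (p q p' q' : ℕ → ℕ → Prop)
    (hp : ∀ x y, x < k → y < k → (p x y ↔ p' x y))
    (hq : ∀ x y, x < k → y < k → (q x y ↔ q' x y)) : sm X k p q = sm X k p' q' := by
  refine sm_emb X (k := k) (l := k) (fun x => x.1) ?_ p q p' q'
    (fun x y _ _ => hp x y x.2 y.2) (fun x y _ _ => hq x y x.2 y.2) ?_
  · exact emb_mk (k := k) (l := k) id id (fun b hb => hb) (fun a b h _ => h) (fun b _ => rfl)
      (fun a _ _ => le_rfl)
  · rintro x y (h | h)
    · exact absurd x.2 h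
    · exact absurd y.2 h

lemma nul_cp {e₀ : Prop} {z : ℕ} {A : ℕ → ℕ → Prop} (h : Nul e₀ z A) : Nul (¬ e₀) z (cp A) :=
  fun x => ⟨not_congr (h x).1, not_congr (h x).2⟩

theorem sm_swap (hX : X.Bad) {t r : ℕ} (hr : r ≤ t) {e₀ : Prop} {A B : ℕ → ℕ → Prop}
    (hA : Nul e₀ (r + 1) A) (hB : Nul e₀ (r + 1) B) :
    sm X (t + 2) A (fun x y => B (sw r x) (sw r y))
      = sm X (t + 2) B (fun x y => A (sw r x) (sw r y)) := by
  unfold sm
  have h1 := pm_swap X hX hr hA hB
  have h2 := pm_swap X hX hr (nul_cp hA) (nul_cp hB)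
  rw [h1]
  congr 2

theorem sm_spread (hX : X.Bad) {t r : ℕ} (hr : r ≤ t) {e₀ : Prop} {A B : ℕ → ℕ → Prop}
    (hA : Nul e₀ (r + 1) A) (hB : Nul e₀ (r + 1) B) :
    sm X (t + 2) A (fun x y => B (sw r x) (sw r y))
      = sm X (t + 2) A (fun x y => B (tw r x) (tw r y)) := by
  unfold sm
  have h1 := pm_spread X hX hr hA hB
  have h2 := pm_spread X hX hr (nul_cp hA) (nul_cp hB)
  rw [h1]
  congr 2

theorem sm_psd (hX : X.Bad) {t r : ℕ} (hr : r ≤ t) {e₀ : Prop} {A : Type} [Fintype A]
    (F : A → ℕ → ℕ → Prop) (hF : ∀ a, Nul e₀ (r + 1) (F a)) (s : A → ℝ) (s₀ : ℝ) :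
    0 ≤ s₀ ^ 2 + 2 * s₀ * (∑ a, s a) * den X
      + ∑ a, ∑ b, s a * s b * sm X (t + 2) (F a) (fun x y => F b (sw r x) (sw r y)) := by
  have h1 := pm_psd X hX hr F hF s s₀
  have h2 := pm_psd X hX hr (fun a => cp (F a)) (fun a => nul_cp (hF a)) s s₀
  have h3 : ∑ a, ∑ b, s a * s b * sm X (t + 2) (F a) (fun x y => F b (sw r x) (sw r y))
      = (∑ a, ∑ b, s a * s b * pm X (t + 2) (F a) (fun x y => F b (sw r x) (sw r y))
        + ∑ a, ∑ b, s a * s b * pm X (t + 2) (cp (F a)) (fun x y => cp (F b) (sw r x) (sw r y)))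
          / 2 := by
    rw [← Finset.sum_add_distrib, Finset.sum_div]
    refine Finset.sum_congr rfl fun a _ => ?_
    rw [← Finset.sum_add_distrib, Finset.sum_div]
    refine Finset.sum_congr rfl fun b _ => ?_
    have h4 : sm X (t + 2) (F a) (fun x y => F b (sw r x) (sw r y))
        = (pm X (t + 2) (F a) (fun x y => F b (sw r x) (sw r y))
          + pm X (t + 2) (cp (F a)) (fun x y => cp (F b) (sw r x) (sw r y))) / 2 := rfl
    rw [h4]
    ring
  rw [h3]
  linarith

lemma adj_cp {k : ℕ} {p q : ℕ → ℕ → Prop} (h : Adj k p q) : Adj k (cp q) (cp p) := by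
  obtain ⟨γ, h0, h1, h2⟩ := h
  refine ⟨γ, h0, ?_, ?_⟩
  · intro x hx y hy h
    exact h ((h2 x y).2 (Or.inr ⟨hx, hy⟩))
  · intro x y
    have h3 := h2 x y
    have h4 := h1 x
    by_cases hx : x ∈ γ
    · by_cases hy : y ∈ γ
      · have h5 := h1 x hx y hy
        simp only [cp, h5, hx, hy, not_false_iff, true_and, or_true]
      · simp only [cp]
        tauto
    · simp only [cp]
      tauto

lemma pm_adj (hX : X.Bad) {k : ℕ} {p q : ℕ → ℕ → Prop} (h : Adj k p q) : pm X k p q = 0 := by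
  refine le_antisymm ?_ (pm_nonneg X hX k p q)
  have h1 := bm_mono X hX k (J := Bool) (fun b => bif b then q else p)
    (fun v => io (v false) * io (v true)) (fun _ => 0) (fun v hv => by
      have h2 := hv false true h
      unfold io
      by_cases h3 : v false
      · have h4 : ¬ v true := fun h4 => h2 ⟨h3, h4⟩
        simp [h4]
      · simp [h3])
  rw [bm_const] at h1
  exact h1

lemma sm_adj (hX : X.Bad) {k : ℕ} {p q : ℕ → ℕ → Prop} (h : Adj k p q) : sm X k p q = 0 := by
  unfold sm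
  rw [pm_adj X hX h, pm_symm, pm_adj X hX (adj_cp h)]
  norm_num

/-- a quadratic inequality for all admissible 0-1 vectors gives one for moments -/
theorem sm_quad (hX : X.Bad) (k n : ℕ) (P : ℕ → ℕ → ℕ → Prop) (d : ℕ → ℕ → Bool)
    (hd : ∀ i j, i < n → j < n → d i j = true → Adj k (P i) (P j) ∨ Adj k (P j) (P i))
    (c : ℝ) (w : ℕ → ℕ → ℝ)
    (h : ∀ x : ℕ → Prop, (∀ i j, i < n → j < n → d i j = true → ¬ (x i ∧ x j)) →
      0 ≤ c + ∑ i ∈ range n, (w i i * io (x i) + ∑ j ∈ range i, w i j * (io (x i) * io (x j)))) :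
    0 ≤ c + ∑ i ∈ range n, (w i i * den X + ∑ j ∈ range i, w i j * sm X k (P i) (P j)) := by
  have key : ∀ Q : ℕ → ℕ → ℕ → Prop,
      (∀ i j, i < n → j < n → d i j = true → Adj k (Q i) (Q j) ∨ Adj k (Q j) (Q i)) →
      0 ≤ c + ∑ i ∈ range n, (w i i * den X + ∑ j ∈ range i, w i j * pm X k (Q i) (Q j)) := by
    intro Q hQ
    have h1 := bm_mono X hX k (J := Fin n) (fun i => Q i) (fun _ => 0)
      (fun v => c + ∑ i : Fin n, (w i i * io (v i)
        + ∑ j ∈ univ.filter (fun j : Fin n => j < i), w i j * (io (v i) * io (v j)))) ?_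
    · rw [bm_const, bm_add, bm_const, bm_sum] at h1
      have h2 : ∀ i : Fin n, bm X k (J := Fin n) (fun i => Q i) (fun v => w i i * io (v i)
          + ∑ j ∈ univ.filter (fun j : Fin n => j < i), w i j * (io (v i) * io (v j)))
          = w i i * den X + ∑ j ∈ range i, w i j * pm X k (Q i) (Q j) := by
        intro i
        rw [bm_add, bm_smul, bm_single, bm_sum]
        congr 1
        have h3 : ∀ j : Fin n, bm X k (J := Fin n) (fun i => Q i)
            (fun v => w i j * (io (v i) * io (v j))) = w i j * pm X k (Q i) (Q j) := by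
          intro j
          rw [bm_smul, bm_pair]
        simp only [h3]
        refine Finset.sum_bij (fun j _ => j.1) ?_ ?_ ?_ ?_
        · intro j hj
          rw [mem_filter] at hj
          exact mem_range.2 hj.2
        · intro j _ j' _ hjj
          exact Fin.ext hjj
        · intro j hj
          have h4 := mem_range.1 hj
          exact ⟨⟨j, h4.trans i.2⟩, mem_filter.2 ⟨mem_univ _, h4⟩, rfl⟩
        · intro j _
          rfl
      rw [Finset.sum_congr rfl fun i _ => h2 i] at h1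
      rw [Finset.sum_range (fun i => w i i * den X + ∑ j ∈ range i, w i j * pm X k (Q i) (Q j))]
      exact h1
    · intro v hv
      have h5 := h (fun i => ∃ hi : i < n, v ⟨i, hi⟩) (by
        rintro i j hi hj hij ⟨⟨_, h6⟩, ⟨_, h7⟩⟩
        rcases hQ i j hi hj hij with h8 | h8
        · exact hv ⟨i, hi⟩ ⟨j, hj⟩ h8 ⟨h6, h7⟩
        · exact hv ⟨j, hj⟩ ⟨i, hi⟩ h8 ⟨h7, h6⟩)
      rw [Finset.sum_range] at h5
      refine h5.trans (le_of_eq ?_)
      congr 1
      refine Finset.sum_congr rfl fun i _ => ?_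
      have h9 : ∀ j : Fin n, io (∃ hi : j.1 < n, v ⟨j.1, hi⟩) = io (v j) := by
        intro j
        congr 1
        exact propext ⟨fun ⟨_, h⟩ => h, fun h => ⟨j.2, h⟩⟩
      rw [h9]
      congr 1
      refine (Finset.sum_bij (fun j _ => j.1) ?_ ?_ ?_ ?_).symm
      · intro j hj
        rw [mem_filter] at hj
        exact mem_range.2 hj.2
      · intro j _ j' _ hjj
        exact Fin.ext hjj
      · intro j hj
        have h4 := mem_range.1 hj
        exact ⟨⟨j, h4.trans i.2⟩, mem_filter.2 ⟨mem_univ _, h4⟩, rfl⟩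
      · intro j _
        rw [h9]
  have k1 := key P hd
  have k2 := key (fun i => cp (P i)) (fun i j hi hj hij => by
    rcases hd i j hi hj hij with h | h
    · exact Or.inr (adj_cp h)
    · exact Or.inl (adj_cp h))
  have h3 : ∑ i ∈ range n, (w i i * den X + ∑ j ∈ range i, w i j * sm X k (P i) (P j))
      = (∑ i ∈ range n, (w i i * den X + ∑ j ∈ range i, w i j * pm X k (P i) (P j))
        + ∑ i ∈ range n, (w i i * den X
          + ∑ j ∈ range i, w i j * pm X k (cp (P i)) (cp (P j)))) / 2 := by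
    rw [← Finset.sum_add_distrib, Finset.sum_div]
    refine Finset.sum_congr rfl fun i _ => ?_
    have h4 : ∑ j ∈ range i, w i j * sm X k (P i) (P j)
        = (∑ j ∈ range i, w i j * pm X k (P i) (P j)
          + ∑ j ∈ range i, w i j * pm X k (cp (P i)) (cp (P j))) / 2 := by
      rw [← Finset.sum_add_distrib, Finset.sum_div]
      refine Finset.sum_congr rfl fun j _ => ?_
      have h5 : sm X k (P i) (P j) = (pm X k (P i) (P j) + pm X k (cp (P i)) (cp (P j))) / 2 := rfl
      rw [h5]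
      ring
    rw [h4]
    ring
  rw [h3]
  linarith

end Pool.Agent.H39.BM
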