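import Mathlib
import Pool.Agent.H39.BM.Sm

set_option autoImplicit false

/-!
# A checker for certificates
-/

namespace Pool.Agent.H39.BM

open Finset Pool.Agent.TH635.BV

/-- number of a cell -/
def ci (x y : ℕ) : ℕ := if x ≤ y then y * (y + 1) / 2 + x else x * (x + 1) / 2 + y

lemma ci_comm (x y : ℕ) : ci x y = ci y x := by
  unfold ci
  rcases lt_trichotomy x y with h | h | h
  · rw [if_pos h.le, if_neg (by omega)]
  · rw [h]
  · rw [if_neg (by omega), if_pos h.le]

/-- the pattern with the given mask -/
def dec (k m : ℕ) : ℕ → ℕ → Prop := fun x y => x < k ∧ y < k ∧ m.testBit (ci x y) = true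

/-- a condition for all numbers below `k` -/
def allb (k : ℕ) (f : ℕ → Bool) : Bool := (List.range k).all f

lemma allb_spec {k : ℕ} {f : ℕ → Bool} (h : allb k f = true) : ∀ x, x < k → f x = true := by
  intro x hx
  exact List.all_eq_true.1 h x (List.mem_range.2 hx)

/-- two patterns over `k` blocks -/
structure Node where
  k : ℕ
  p : ℕ
  q : ℕ
deriving DecidableEq

/-- elementary steps -/
inductive Mv
  | e (π σ : List ℕ)
  | i (π σ : List ℕ)
  | c
  | w (r : ℕ)
  | s (r : ℕ)
  | t (r : ℕ)
  | y

def chkE (π σ : List ℕ) (n n' : Node) : Bool :=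
  allb n'.k (fun b => decide (σ.getD b 0 < n.k) && decide (π.getD (σ.getD b 0) 0 = b)
    && allb n'.k (fun a => decide (¬ a < b) || decide (σ.getD a 0 < σ.getD b 0)))
  && allb n.k (fun a => decide (¬ π.getD a 0 < n'.k) || decide (a ≤ σ.getD (π.getD a 0) 0))
  && allb n.k (fun x => allb n.k (fun y =>
    if π.getD x 0 < n'.k ∧ π.getD y 0 < n'.k then
      (n.p.testBit (ci x y) == n'.p.testBit (ci (π.getD x 0) (π.getD y 0))) &&
      (n.q.testBit (ci x y) == n'.q.testBit (ci (π.getD x 0) (π.getD y 0)))
    else (n.q.testBit (ci x y) == n.p.testBit (ci x y))))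

def chkC (n n' : Node) : Bool :=
  decide (n'.k = n.k) && allb n.k (fun x => allb n.k (fun y =>
    (n'.p.testBit (ci x y) == !n.p.testBit (ci x y)) &&
    (n'.q.testBit (ci x y) == !n.q.testBit (ci x y))))

def chkW (r : ℕ) (n n' : Node) : Bool :=
  decide (n'.k = n.k) && decide (r + 2 ≤ n.k) &&
  allb n.k (fun x => !n.p.testBit (ci (r + 1) x) && !n'.p.testBit (ci (r + 1) x)) &&
  allb n.k (fun x => allb n.k (fun y =>
    (n.q.testBit (ci x y) == n'.p.testBit (ci (sw r x) (sw r y))) &&
    (n'.q.testBit (ci x y) == n.p.testBit (ci (sw r x) (sw r y)))))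

def chkS (r : ℕ) (n n' : Node) : Bool :=
  decide (n'.k = n.k) && decide (r + 2 ≤ n.k) && decide (n'.p = n.p) &&
  allb n.k (fun x => !n.p.testBit (ci (r + 1) x) && !n.q.testBit (ci r x)) &&
  allb n.k (fun x => allb n.k (fun y =>
    (n'.q.testBit (ci x y) == n.q.testBit (ci (sw r (tw r x)) (sw r (tw r y))))))

def chk : Mv → Node → Node → Bool
  | .e π σ, n, n' => chkE π σ n n'
  | .i π σ, n, n' => chkE π σ n' n
  | .c, n, n' => chkC n n'
  | .w r, n, n' => chkW r n n'
  | .s r, n, n' => chkS r n n'
  | .t r, n, n' => chkS r n' n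
  | .y, n, n' => decide (n'.k = n.k ∧ n'.p = n.q ∧ n'.q = n.p)

/-- end of a path -/
def runP : Node → List (Mv × Node) → Option Node
  | n, [] => some n
  | n, (m, n') :: l => if chk m n n' = true then runP n' l else none

variable (X : Fam)

/-- the moment of a node -/
noncomputable def val (n : Node) : ℝ := sm X n.k (dec n.k n.p) (dec n.k n.q)

lemma dec_iff {k m : ℕ} {x y : ℕ} (hx : x < k) (hy : y < k) :
    dec k m x y ↔ m.testBit (ci x y) = true := by
  unfold dec
  simp [hx, hy]

lemma chkE_sound {π σ : List ℕ} {n n' : Node} (h : chkE π σ n n' = true) :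
    val X n = val X n' := by
  unfold chkE at h
  simp only [Bool.and_eq_true] at h
  obtain ⟨⟨h1, h2⟩, h3⟩ := h
  unfold val
  refine sm_emb X (k := n.k) (l := n'.k) (fun x => π.getD x 0) ?_ _ _ _ _ ?_ ?_ ?_
  · refine emb_mk (fun x => π.getD x 0) (fun x => σ.getD x 0) ?_ ?_ ?_ ?_
    · intro b hb
      have := allb_spec h1 b hb
      simp only [Bool.and_eq_true, decide_eq_true_eq] at this
      exact this.1.1
    · intro a b hab hb
      have h4 := allb_spec h1 b hb
      simp only [Bool.and_eq_true, decide_eq_true_eq] at h4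
      have h5 := allb_spec h4.2 a (hab.trans hb)
      simp only [Bool.or_eq_true, decide_eq_true_eq] at h5
      rcases h5 with h5 | h5
      · exact absurd hab h5
      · exact h5
    · intro b hb
      have := allb_spec h1 b hb
      simp only [Bool.and_eq_true, decide_eq_true_eq] at this
      exact this.1.2
    · intro a ha h
      have := allb_spec h2 a ha
      simp only [Bool.or_eq_true, decide_eq_true_eq] at this
      rcases this with h5 | h5
      · exact absurd h h5
      · exact h5
  · intro x y hx hy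
    have h4 := allb_spec (allb_spec h3 x x.2) y y.2
    rw [if_pos ⟨hx, hy⟩] at h4
    simp only [Bool.and_eq_true, beq_iff_eq] at h4
    rw [dec_iff x.2 y.2, dec_iff hx hy, h4.1]
  · intro x y hx hy
    have h4 := allb_spec (allb_spec h3 x x.2) y y.2
    rw [if_pos ⟨hx, hy⟩] at h4
    simp only [Bool.and_eq_true, beq_iff_eq] at h4
    rw [dec_iff x.2 y.2, dec_iff hx hy, h4.2]
  · intro x y h
    have h4 := allb_spec (allb_spec h3 x x.2) y y.2
    rw [if_neg (by tauto)] at h4
    simp only [beq_iff_eq] at h4
    rw [dec_iff x.2 y.2, dec_iff x.2 y.2, h4]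

lemma chkC_sound {n n' : Node} (h : chkC n n' = true) : val X n = val X n' := by
  unfold chkC at h
  simp only [Bool.and_eq_true, decide_eq_true_eq] at h
  obtain ⟨h1, h3⟩ := h
  unfold val
  rw [← sm_cp, h1]
  refine sm_congr X _ _ _ _ ?_ ?_
  · intro x y hx hy
    have h4 := allb_spec (allb_spec h3 x hx) y hy
    simp only [Bool.and_eq_true, beq_iff_eq] at h4
    unfold cp
    rw [dec_iff hx hy, dec_iff hx hy, h4.1]
    cases n.p.testBit (ci x y) <;> simp
  · intro x y hx hy
    have h4 := allb_spec (allb_spec h3 x hx) y hy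
    simp only [Bool.and_eq_true, beq_iff_eq] at h4
    unfold cp
    rw [dec_iff hx hy, dec_iff hx hy, h4.2]
    cases n.q.testBit (ci x y) <;> simp

lemma nul_dec {k m z : ℕ} (h : ∀ x, x < k → m.testBit (ci z x) = false) :
    Nul False z (dec k m) := by
  intro x
  constructor
  · refine iff_false_intro ?_
    rintro ⟨_, hx, h1⟩
    rw [h x hx] at h1
    exact absurd h1 (by decide)
  · refine iff_false_intro ?_
    rintro ⟨hx, _, h1⟩
    rw [ci_comm, h x hx] at h1
    exact absurd h1 (by decide)

lemma sw_lt {k r x : ℕ} (hr : r + 2 ≤ k) (hx : x < k) : sw r x < k := by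
  have := sw_spec r x
  omega

lemma tw_lt {k r x : ℕ} (_hr : r + 2 ≤ k) (hx : x < k) : tw r x < k := by
  have := tw_spec r x
  omega

lemma sw_sw (r x : ℕ) : sw r (sw r x) = x := by
  have h1 := sw_spec r x
  have h2 := sw_spec r (sw r x)
  omega

lemma chkW_sound (hX : X.Bad) {r : ℕ} {n n' : Node} (h : chkW r n n' = true) :
    val X n = val X n' := by
  obtain ⟨k, p, q⟩ := n
  obtain ⟨k', p', q'⟩ := n'
  unfold chkW at h
  simp only [Bool.and_eq_true, decide_eq_true_eq] at h
  obtain ⟨⟨⟨h1, h2⟩, h3⟩, h4⟩ := h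
  subst h1
  obtain ⟨t, rfl⟩ : ∃ t, k' = t + 2 := ⟨k' - 2, by omega⟩
  have hr : r ≤ t := by omega
  have nA : Nul False (r + 1) (dec (t + 2) p) := nul_dec fun x hx => by
    have := allb_spec h3 x hx
    simp only [Bool.and_eq_true, Bool.not_eq_true'] at this
    exact this.1
  have nB : Nul False (r + 1) (dec (t + 2) p') := nul_dec fun x hx => by
    have := allb_spec h3 x hx
    simp only [Bool.and_eq_true, Bool.not_eq_true'] at this
    exact this.2
  unfold val
  have e := sm_swap X hX hr nA nB
  have e1 : sm X (t + 2) (dec (t + 2) p) (dec (t + 2) q)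
      = sm X (t + 2) (dec (t + 2) p) (fun x y => dec (t + 2) p' (sw r x) (sw r y)) := by
    refine sm_congr X _ _ _ _ (fun x y _ _ => Iff.rfl) fun x y hx hy => ?_
    have h5 := allb_spec (allb_spec h4 x hx) y hy
    simp only [Bool.and_eq_true, beq_iff_eq] at h5
    rw [dec_iff hx hy, dec_iff (sw_lt (by omega) hx) (sw_lt (by omega) hy), h5.1]
  have e2 : sm X (t + 2) (dec (t + 2) p') (dec (t + 2) q')
      = sm X (t + 2) (dec (t + 2) p') (fun x y => dec (t + 2) p (sw r x) (sw r y)) := by
    refine sm_congr X _ _ _ _ (fun x y _ _ => Iff.rfl) fun x y hx hy => ?_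
    have h5 := allb_spec (allb_spec h4 x hx) y hy
    simp only [Bool.and_eq_true, beq_iff_eq] at h5
    rw [dec_iff hx hy, dec_iff (sw_lt (by omega) hx) (sw_lt (by omega) hy), h5.2]
  exact (e1.trans e).trans e2.symm

lemma chkS_sound (hX : X.Bad) {r : ℕ} {n n' : Node} (h : chkS r n n' = true) :
    val X n = val X n' := by
  obtain ⟨k, p, q⟩ := n
  obtain ⟨k', p', q'⟩ := n'
  unfold chkS at h
  simp only [Bool.and_eq_true, decide_eq_true_eq] at h
  obtain ⟨⟨⟨⟨h1, h2⟩, h0⟩, h3⟩, h4⟩ := h
  subst h1
  subst h0
  obtain ⟨t, rfl⟩ : ∃ t, k' = t + 2 := ⟨k' - 2, by omega⟩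
  have hr : r ≤ t := by omega
  have nA : Nul False (r + 1) (dec (t + 2) p') := nul_dec fun x hx => by
    have := allb_spec h3 x hx
    simp only [Bool.and_eq_true, Bool.not_eq_true'] at this
    exact this.1
  have nq : Nul False r (dec (t + 2) q) := nul_dec fun x hx => by
    have := allb_spec h3 x hx
    simp only [Bool.and_eq_true, Bool.not_eq_true'] at this
    exact this.2
  have hs : sw r (r + 1) = r := by
    have := sw_spec r (r + 1)
    omega
  have nB : Nul False (r + 1) (fun x y => dec (t + 2) q (sw r x) (sw r y)) := by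
    intro x
    simp only [hs]
    exact nq _
  unfold val
  have e := sm_spread X hX hr nA nB
  have e1 : sm X (t + 2) (dec (t + 2) p') (dec (t + 2) q)
      = sm X (t + 2) (dec (t + 2) p')
        (fun x y => (fun x y => dec (t + 2) q (sw r x) (sw r y)) (sw r x) (sw r y)) := by
    refine sm_congr X _ _ _ _ (fun x y _ _ => Iff.rfl) fun x y hx hy => ?_
    simp only [sw_sw]
  have e2 : sm X (t + 2) (dec (t + 2) p') (dec (t + 2) q')
      = sm X (t + 2) (dec (t + 2) p')
        (fun x y => (fun x y => dec (t + 2) q (sw r x) (sw r y)) (tw r x) (tw r y)) := by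
    refine sm_congr X _ _ _ _ (fun x y _ _ => Iff.rfl) fun x y hx hy => ?_
    have h5 := allb_spec (allb_spec h4 x hx) y hy
    simp only [beq_iff_eq] at h5
    have hx' := sw_lt (k := t + 2) (r := r) (by omega) (tw_lt (r := r) (by omega) hx)
    have hy' := sw_lt (k := t + 2) (r := r) (by omega) (tw_lt (r := r) (by omega) hy)
    simp only
    rw [dec_iff hx hy, dec_iff hx' hy', h5]
  exact (e1.trans e).trans e2.symm

lemma chk_sound (hX : X.Bad) {m : Mv} {n n' : Node} (h : chk m n n' = true) :
    val X n = val X n' := by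
  cases m with
  | e π σ => exact chkE_sound X h
  | i π σ => exact (chkE_sound X h).symm
  | c => exact chkC_sound X h
  | w r => exact chkW_sound X hX h
  | s r => exact chkS_sound X hX h
  | t r => exact (chkS_sound X hX h).symm
  | y =>
    unfold chk at h
    simp only [decide_eq_true_eq] at h
    unfold val
    rw [h.1, h.2.1, h.2.2, sm_symm]

lemma runP_sound (hX : X.Bad) (l : List (Mv × Node)) : ∀ {n e : Node}, runP n l = some e →
    val X n = val X e := by
  induction l with
  | nil =>
    intro n e h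
    unfold runP at h
    rw [Option.some.inj h]
  | cons a l ih =>
    obtain ⟨m, n'⟩ := a
    intro n e h
    unfold runP at h
    by_cases h1 : chk m n n' = true
    · rw [if_pos h1] at h
      exact (chk_sound X hX h1).trans (ih h)
    · rw [if_neg h1] at h
      exact absurd h (by simp)

/-- zero moments -/
def chkZ (γ : ℕ) (n : Node) : Bool :=
  !(allb n.k (fun x => !γ.testBit x)) &&
  allb n.k (fun x => allb n.k (fun y =>
    (!(γ.testBit x && γ.testBit y && n.p.testBit (ci x y))) &&
    (n.q.testBit (ci x y) == (n.p.testBit (ci x y) || (γ.testBit x && γ.testBit y)))))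

lemma chkZ_adj {γ : ℕ} {n : Node} (h : chkZ γ n = true) :
    Adj n.k (dec n.k n.p) (dec n.k n.q) := by
  classical
  unfold chkZ at h
  simp only [Bool.and_eq_true] at h
  obtain ⟨h1, h2⟩ := h
  refine ⟨univ.filter (fun x : Fin n.k => γ.testBit x = true), ?_, ?_, ?_⟩
  · by_contra hne
    rw [Finset.not_nonempty_iff_eq_empty] at hne
    have h3 : allb n.k (fun x => !γ.testBit x) = true := by
      unfold allb
      rw [List.all_eq_true]
      intro x hx
      have hx' := List.mem_range.1 hx
      by_contra h4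
      have h5 : (⟨x, hx'⟩ : Fin n.k) ∈ univ.filter (fun x : Fin n.k => γ.testBit x = true) := by
        simp only [mem_filter, mem_univ, true_and]
        simpa using h4
      rw [hne] at h5
      exact absurd h5 (notMem_empty _)
    rw [h3] at h1
    exact absurd h1 (by decide)
  · intro x hx y hy
    simp only [mem_filter, mem_univ, true_and] at hx hy
    have h4 := allb_spec (allb_spec h2 x x.2) y y.2
    simp only [Bool.and_eq_true, hx, hy, Bool.true_and] at h4
    rw [dec_iff x.2 y.2]
    simpa using h4.1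
  · intro x y
    have h4 := allb_spec (allb_spec h2 x x.2) y y.2
    simp only [Bool.and_eq_true, beq_iff_eq] at h4
    rw [dec_iff x.2 y.2, dec_iff x.2 y.2, h4.2]
    simp only [Bool.or_eq_true, Bool.and_eq_true, mem_filter, mem_univ, true_and]

lemma chkZ_sound (hX : X.Bad) {γ : ℕ} {n : Node} (h : chkZ γ n = true) : val X n = 0 :=
  sm_adj X hX (chkZ_adj h)

/-- the node of the density -/
def nd : Node := ⟨0, 0, 0⟩

lemma val_nd : val X nd = den X := sm_self X _ _

/-- table entries: node, class, path, set of blocks -/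
structure Ent where
  n : Node
  c : ℕ
  path : List (Mv × Node)
  γ : ℕ

/-- value of a class; class `0` has the value `0`, the others the value of a representative -/
noncomputable def Yv (R : List Node) (c : ℕ) : ℝ := if c = 0 then 0 else val X (R.getD c nd)

def chkT (R : List Node) (e : Ent) : Bool :=
  match runP e.n e.path with
  | none => false
  | some z => if e.c = 0 then chkZ e.γ z else decide (R.getD e.c nd = z)

lemma chkT_sound (hX : X.Bad) {R : List Node} {e : Ent} (h : chkT R e = true) :
    val X e.n = Yv X R e.c := by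
  unfold chkT at h
  split at h
  · exact absurd h (by decide)
  · rename_i z hz
    rw [runP_sound X hX e.path hz]
    unfold Yv
    by_cases h1 : e.c = 0
    · rw [if_pos h1] at h ⊢
      exact chkZ_sound X hX h
    · rw [if_neg h1] at h ⊢
      rw [of_decide_eq_true h]

/-- linear forms -/
abbrev LF := List (ℤ × Node)

noncomputable def ev (L : LF) : ℝ := (L.map (fun e => (e.1 : ℝ) * val X e.2)).sum

lemma ev_append (L L' : LF) : ev X (L ++ L') = ev X L + ev X L' := by
  unfold ev
  rw [List.map_append, List.sum_append]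

lemma ev_cons (e : ℤ × Node) (L : LF) : ev X (e :: L) = e.1 * val X e.2 + ev X L := by
  unfold ev
  rw [List.map_cons, List.sum_cons]

lemma ev_nil : ev X [] = 0 := rfl

lemma ev_flatMap (n : ℕ) (f : ℕ → LF) :
    ev X ((List.range n).flatMap f) = ∑ i ∈ range n, ev X (f i) := by
  induction n with
  | zero => rfl
  | succ n ih =>
    rw [List.range_succ, List.flatMap_append, ev_append, ih, Finset.sum_range_succ]
    congr 1
    simp

lemma ev_map (n : ℕ) (f : ℕ → ℤ × Node) :
    ev X ((List.range n).map f) = ∑ i ∈ range n, ((f i).1 : ℝ) * val X (f i).2 := by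
  induction n with
  | zero => rfl
  | succ n ih =>
    rw [List.range_succ, List.map_append, ev_append, ih, Finset.sum_range_succ]
    congr 1
    simp [ev]

/-- the class of a node -/
def lk (T : List Ent) (n : Node) : Option ℕ :=
  match T.find? (fun e => decide (e.n = n)) with
  | none => none
  | some e => some e.c

lemma lk_sound (hX : X.Bad) {R : List Node} {T : List Ent} (hT : T.all (chkT R) = true)
    {n : Node} {c : ℕ} (h : lk T n = some c) : val X n = Yv X R c := by
  unfold lk at h
  split at h
  · exact absurd h (by simp)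
  · rename_i e he
    have h1 := List.find?_some he
    have h2 := List.mem_of_find?_eq_some he
    rw [← Option.some.inj h, ← of_decide_eq_true h1]
    exact chkT_sound X hX (List.all_eq_true.1 hT e h2)

/-- total coefficient of a class -/
def tot (L : List (ℤ × Option ℕ)) (c : ℕ) : ℤ :=
  (L.map (fun e => if e.2 = some c then e.1 else 0)).sum

def cls (T : List Ent) (L : LF) : List (ℤ × Option ℕ) := L.map (fun e => (e.1, lk T e.2))

def chkL (K : ℕ) (L : List (ℤ × Option ℕ)) : Bool :=
  L.all (fun e => match e.2 with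
    | none => false
    | some c => decide (c < K))

lemma ev_eq (hX : X.Bad) {R : List Node} {T : List Ent} (hT : T.all (chkT R) = true) (K : ℕ)
    (L : LF) (hL : chkL K (cls T L) = true) :
    ev X L = ∑ c ∈ range K, (tot (cls T L) c : ℝ) * Yv X R c := by
  induction L with
  | nil =>
    rw [ev_nil]
    symm
    refine Finset.sum_eq_zero fun c _ => ?_
    simp [tot, cls]
  | cons e L ih =>
    unfold cls chkL at hL
    rw [List.map_cons, List.all_cons, Bool.and_eq_true] at hL
    obtain ⟨h1, h2⟩ := hL
    rw [ev_cons, ih h2]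
    have h3 : ∀ c, tot (cls T (e :: L)) c
        = (if lk T e.2 = some c then e.1 else 0) + tot (cls T L) c := by
      intro c
      unfold tot cls
      rw [List.map_cons, List.map_cons, List.sum_cons]
    cases h4 : lk T e.2 with
    | none =>
      simp only [h4] at h1
      exact absurd h1 (by decide)
    | some c₀ =>
      simp only [h4] at h1
      have h5 := of_decide_eq_true h1
      rw [lk_sound X hX hT h4]
      simp only [h3, h4]
      have h6 : ∀ c, ((((if some c₀ = some c then e.1 else 0) + tot (cls T L) c : ℤ)) : ℝ) * Yv X R c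
          = (if c₀ = c then (e.1 : ℝ) * Yv X R c₀ else 0) + (tot (cls T L) c : ℝ) * Yv X R c := by
        intro c
        by_cases h7 : c₀ = c
        · subst h7
          simp only [if_true]
          push_cast
          ring
        · rw [if_neg (fun h => h7 (Option.some.inj h)), if_neg h7]
          push_cast
          ring
      simp only [h6]
      rw [Finset.sum_add_distrib, Finset.sum_ite_eq, if_pos (mem_range.2 h5)]

/-- quadratic inequality on independent sets -/
def go (w : ℕ → ℕ → ℤ) (d : ℕ → ℕ → Bool) : ℕ → ℕ → List ℕ → ℤ → Bool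
  | 0, _, _, acc => decide (0 ≤ acc)
  | n + 1, i, S, acc => go w d n (i + 1) S acc &&
      (S.any (d i) || go w d n (i + 1) (i :: S) (acc + w i i + (S.map (w i)).sum))

open Classical in
/-- the chosen elements below `i` -/
noncomputable def SS (x : ℕ → Prop) : ℕ → List ℕ
  | 0 => []
  | i + 1 => if x i then i :: SS x i else SS x i

open Classical in
lemma SS_succ (x : ℕ → Prop) (i : ℕ) : SS x (i + 1) = if x i then i :: SS x i else SS x i := rfl

lemma SS_mem {x : ℕ → Prop} {i j : ℕ} (h : j ∈ SS x i) : x j ∧ j < i := by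
  induction i with
  | zero => exact absurd h (by simp [SS])
  | succ i ih =>
    rw [SS_succ] at h
    split_ifs at h with h1
    · rcases List.mem_cons.1 h with h2 | h2
      · rw [h2]
        exact ⟨h1, Nat.lt_succ_self _⟩
      · exact ⟨(ih h2).1, (ih h2).2.trans (Nat.lt_succ_self _)⟩
    · exact ⟨(ih h).1, (ih h).2.trans (Nat.lt_succ_self _)⟩

lemma SS_sum (x : ℕ → Prop) (f : ℕ → ℤ) (i : ℕ) :
    (((SS x i).map f).sum : ℝ) = ∑ j ∈ range i, (f j : ℝ) * io (x j) := by
  induction i with
  | zero => simp [SS]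
  | succ i ih =>
    rw [Finset.sum_range_succ, ← ih, SS_succ]
    split_ifs with h1
    · rw [List.map_cons, List.sum_cons]
      unfold io
      rw [if_pos h1]
      push_cast
      ring
    · unfold io
      rw [if_neg h1]
      push_cast
      ring

theorem go_sound (w : ℕ → ℕ → ℤ) (d : ℕ → ℕ → Bool) (x : ℕ → Prop) (N : ℕ)
    (hx : ∀ i j, i < N → j < N → d i j = true → ¬ (x i ∧ x j)) (c : ℤ) :
    ∀ (n i : ℕ) (acc : ℤ), i + n = N → go w d n i (SS x i) acc = true →
    ((acc : ℤ) : ℝ) = c + ∑ i ∈ range i, ((w i i : ℝ) * io (x i)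
      + ∑ j ∈ range i, (w i j : ℝ) * (io (x i) * io (x j))) →
    0 ≤ (c : ℝ) + ∑ i ∈ range N, ((w i i : ℝ) * io (x i)
      + ∑ j ∈ range i, (w i j : ℝ) * (io (x i) * io (x j))) := by
  intro n
  induction n with
  | zero =>
    intro i acc hi h hacc
    unfold go at h
    have h1 := of_decide_eq_true h
    rw [Nat.add_zero] at hi
    rw [← hi, ← hacc]
    exact_mod_cast h1
  | succ n ih =>
    intro i acc hi h hacc
    unfold go at h
    rw [Bool.and_eq_true, Bool.or_eq_true] at h
    obtain ⟨h1, h2⟩ := h
    by_cases hxi : x i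
    · rcases h2 with h2 | h2
      · rw [List.any_eq_true] at h2
        obtain ⟨j, hj, hd⟩ := h2
        have h3 := SS_mem hj
        exact absurd ⟨hxi, h3.1⟩ (hx i j (by omega) (by omega) hd)
      · refine ih (i + 1) (acc + w i i + ((SS x i).map (w i)).sum) (by omega) ?_ ?_
        · have h3 : SS x (i + 1) = i :: SS x i := by
            rw [SS_succ, if_pos hxi]
          rw [h3]
          exact h2
        · rw [Finset.sum_range_succ, Int.cast_add, Int.cast_add, hacc, SS_sum]
          have h4 : io (x i) = 1 := by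
            unfold io
            rw [if_pos hxi]
          rw [h4]
          simp only [one_mul, mul_one]
          ring
    · refine ih (i + 1) acc (by omega) ?_ ?_
      · have h3 : SS x (i + 1) = SS x i := by
          rw [SS_succ, if_neg hxi]
        rw [h3]
        exact h1
      · rw [Finset.sum_range_succ, hacc]
        have h4 : io (x i) = 0 := by
          unfold io
          rw [if_neg hxi]
        rw [h4]
        simp

/-- a linear programming block -/
structure LP where
  k : ℕ
  V : List ℕ
  W : List (List ℤ)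
  c : ℤ

def LP.w (B : LP) (i j : ℕ) : ℤ := (B.W.getD i []).getD j 0
def LP.v (B : LP) (i : ℕ) : ℕ := B.V.getD i 0

/-- adjacency given by a list of triples -/
def adjL (D : List (ℕ × ℕ × ℕ)) (i j : ℕ) : Bool :=
  D.any (fun e => decide (e.1 = i) && decide (e.2.1 = j))

/-- check of a linear programming block with a list of adjacent pairs and their squares -/
def chkLP (B : LP) (D : List (ℕ × ℕ × ℕ)) : Bool :=
  D.all (fun e => chkZ e.2.2 ⟨B.k, B.v e.1, B.v e.2.1⟩ || chkZ e.2.2 ⟨B.k, B.v e.2.1, B.v e.1⟩) &&
  go B.w (adjL D) B.V.length 0 [] B.c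

def LP.L (B : LP) : LF :=
  (List.range B.V.length).flatMap (fun i => (B.w i i, nd) ::
    (List.range i).map (fun j => (B.w i j, ⟨B.k, B.v i, B.v j⟩)))

theorem lp_sound (hX : X.Bad) (B : LP) (D : List (ℕ × ℕ × ℕ)) (h : chkLP B D = true) :
    0 ≤ (B.c : ℝ) + ev X B.L := by
  unfold chkLP at h
  rw [Bool.and_eq_true] at h
  obtain ⟨h1, h2⟩ := h
  have h3 := sm_quad X hX B.k B.V.length (fun i => dec B.k (B.v i)) (adjL D) ?_ B.c
    (fun i j => (B.w i j : ℝ)) ?_
  · have h4 : ev X B.L = ∑ i ∈ range B.V.length, ((B.w i i : ℝ) * den X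
        + ∑ j ∈ range i, (B.w i j : ℝ) * sm X B.k (dec B.k (B.v i)) (dec B.k (B.v j))) := by
      unfold LP.L
      rw [ev_flatMap]
      refine Finset.sum_congr rfl fun i _ => ?_
      rw [ev_cons, ev_map, val_nd]
      rfl
    rw [h4]
    exact h3
  · intro i j _ _ hij
    unfold adjL at hij
    rw [List.any_eq_true] at hij
    obtain ⟨⟨i', j', γ⟩, he, hd⟩ := hij
    simp only [Bool.and_eq_true, decide_eq_true_eq] at hd
    obtain ⟨rfl, rfl⟩ := hd
    have h4 := List.all_eq_true.1 h1 _ he
    simp only [Bool.or_eq_true] at h4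
    rcases h4 with h4 | h4
    · exact Or.inl (chkZ_adj h4)
    · exact Or.inr (chkZ_adj h4)
  · intro x hx
    exact go_sound B.w (adjL D) x B.V.length hx B.c B.V.length 0 B.c (by omega) h2 (by simp)

/-- a positivity block -/
structure PS where
  t : ℕ
  r : ℕ
  F : List ℕ
  G : List ℕ
  s : List ℤ
  s₀ : ℤ
  μ : ℕ

def PS.f (B : PS) (i : ℕ) : ℕ := B.F.getD i 0
def PS.g (B : PS) (i : ℕ) : ℕ := B.G.getD i 0
def PS.u (B : PS) (i : ℕ) : ℤ := B.s.getD i 0

def chkPS (B : PS) : Bool :=
  decide (B.r ≤ B.t) &&
  allb B.F.length (fun a => allb (B.t + 2) (fun x => !(B.f a).testBit (ci (B.r + 1) x)) &&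
    allb (B.t + 2) (fun x => allb (B.t + 2) (fun y =>
      (B.g a).testBit (ci x y) == (B.f a).testBit (ci (sw B.r x) (sw B.r y)))))

def PS.L (B : PS) : LF :=
  (2 * B.μ * B.s₀ * ((List.range B.F.length).map B.u).sum, nd) ::
  (List.range B.F.length).flatMap (fun a => (List.range B.F.length).map (fun b =>
    (B.μ * B.u a * B.u b, ⟨B.t + 2, B.f a, B.g b⟩)))

lemma sum_rangeL (n : ℕ) (f : ℕ → ℤ) : (((List.range n).map f).sum : ℤ) = ∑ i ∈ range n, f i := by
  induction n with
  | zero => rfl
  | succ n ih =>
    rw [List.range_succ, List.map_append, List.sum_append, ih, Finset.sum_range_succ]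
    simp

theorem ps_sound (hX : X.Bad) (B : PS) (h : chkPS B = true) :
    0 ≤ ((B.μ * B.s₀ ^ 2 : ℤ) : ℝ) + ev X B.L := by
  unfold chkPS at h
  rw [Bool.and_eq_true] at h
  obtain ⟨h1, h2⟩ := h
  have hr := of_decide_eq_true h1
  have h3 := sm_psd X hX hr (e₀ := False) (A := Fin B.F.length)
    (fun a => dec (B.t + 2) (B.f a)) (fun a => ?_) (fun a => (B.u a : ℝ)) B.s₀
  · have h4 : ∀ a b : Fin B.F.length,
        sm X (B.t + 2) (dec (B.t + 2) (B.f a))
          (fun x y => dec (B.t + 2) (B.f b) (sw B.r x) (sw B.r y))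
        = val X ⟨B.t + 2, B.f a, B.g b⟩ := by
      intro a b
      unfold val
      refine sm_congr X _ _ _ _ (fun x y _ _ => Iff.rfl) fun x y hx hy => ?_
      have h5 := allb_spec h2 b b.2
      rw [Bool.and_eq_true] at h5
      have h6 := allb_spec (allb_spec h5.2 x hx) y hy
      rw [beq_iff_eq] at h6
      rw [dec_iff hx hy, dec_iff (sw_lt (by omega) hx) (sw_lt (by omega) hy), h6]
    have h5 : ev X B.L = 2 * B.μ * B.s₀ * (∑ a : Fin B.F.length, (B.u a : ℝ)) * den X
        + ∑ a : Fin B.F.length, ∑ b : Fin B.F.length,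
          (B.μ * B.u a * B.u b : ℝ) * val X ⟨B.t + 2, B.f a, B.g b⟩ := by
      unfold PS.L
      rw [ev_cons, ev_flatMap, val_nd, Finset.sum_range]
      congr 1
      · rw [sum_rangeL]
        push_cast
        rw [Finset.sum_range]
      · refine Finset.sum_congr rfl fun a _ => ?_
        rw [ev_map, Finset.sum_range]
        push_cast
        rfl
    rw [h5]
    have h6 : ∑ a : Fin B.F.length, ∑ b : Fin B.F.length,
          (B.μ * B.u a * B.u b : ℝ) * val X ⟨B.t + 2, B.f a, B.g b⟩
        = B.μ * ∑ a : Fin B.F.length, ∑ b : Fin B.F.length,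
          (B.u a * B.u b : ℝ) * val X ⟨B.t + 2, B.f a, B.g b⟩ := by
      rw [Finset.mul_sum]
      refine Finset.sum_congr rfl fun a _ => ?_
      rw [Finset.mul_sum]
      refine Finset.sum_congr rfl fun b _ => ?_
      ring
    rw [h6]
    simp only [h4] at h3
    have h7 : (0 : ℝ) ≤ B.μ := Nat.cast_nonneg _
    have h8 := mul_nonneg h7 h3
    push_cast
    linarith
  · exact nul_dec fun x hx => by
      have h5 := allb_spec h2 a a.2
      rw [Bool.and_eq_true] at h5
      have h6 := allb_spec h5.1 x hx
      simpa using h6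

end Pool.Agent.H39.BM
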