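import Mathlib
import Pool.Agent.H39.BM.Chk

set_option autoImplicit false

/-!
# Soundness of certificates
-/

namespace Pool.Agent.H39.BM

open Finset Pool.Agent.TH635.BV

variable (X : Fam)

/-- the linear form of a certificate -/
def totL (Ls : List (LP × List (ℕ × ℕ × ℕ))) (Ps : List PS) : LF :=
  Ls.flatMap (fun e => e.1.L) ++ Ps.flatMap (fun B => B.L)

/-- the constant of a certificate -/
def totC (Ls : List (LP × List (ℕ × ℕ × ℕ))) (Ps : List PS) : ℤ :=
  (Ls.map (fun e => e.1.c)).sum + (Ps.map (fun B => (B.μ * B.s₀ ^ 2 : ℤ))).sum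

/-- the coefficients of all classes `≥ 2` vanish and the coefficient of the density is `-D` -/
def chkTot (K D : ℕ) (L : List (ℤ × Option ℕ)) : Bool :=
  allb K (fun c => decide (c < 2) || decide (tot L c = 0)) && decide (tot L 1 = -(D : ℤ)) &&
    decide (2 ≤ K)

theorem cert_sound (hX : X.Bad) {R : List Node} {T : List Ent} (hT : T.all (chkT R) = true)
    (Ls : List (LP × List (ℕ × ℕ × ℕ))) (Ps : List PS)
    (h2 : Ls.all (fun e => chkLP e.1 e.2) = true) (h3 : Ps.all chkPS = true) (K D : ℕ)
    (h4 : chkL K (cls T (totL Ls Ps)) = true) (h5 : R.getD 1 nd = nd)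
    (h6 : chkTot K D (cls T (totL Ls Ps)) = true) : (D : ℝ) * den X ≤ (totC Ls Ps : ℤ) := by
  have e1 : 0 ≤ (((Ls.map (fun e => e.1.c)).sum : ℤ) : ℝ) + ev X (Ls.flatMap (fun e => e.1.L)) := by
    clear h4 h6
    induction Ls with
    | nil => simp [ev]
    | cons a Ls ih =>
      rw [List.all_cons, Bool.and_eq_true] at h2
      rw [List.map_cons, List.sum_cons, List.flatMap_cons, ev_append]
      have := lp_sound X hX a.1 a.2 h2.1
      have := ih h2.2
      rw [Int.cast_add]
      linarith
  have e2 : 0 ≤ (((Ps.map (fun B => (B.μ * B.s₀ ^ 2 : ℤ))).sum : ℤ) : ℝ)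
      + ev X (Ps.flatMap (fun B => B.L)) := by
    clear h4 h6
    induction Ps with
    | nil => simp [ev]
    | cons a Ps ih =>
      rw [List.all_cons, Bool.and_eq_true] at h3
      rw [List.map_cons, List.sum_cons, List.flatMap_cons, ev_append]
      have := ps_sound X hX a h3.1
      have := ih h3.2
      rw [Int.cast_add]
      linarith
  have e3 := ev_eq X hX hT K (totL Ls Ps) h4
  unfold chkTot at h6
  simp only [Bool.and_eq_true, decide_eq_true_eq] at h6
  obtain ⟨⟨h7, h8⟩, h9⟩ := h6
  have e4 : ∑ c ∈ range K, (tot (cls T (totL Ls Ps)) c : ℝ) * Yv X R c = -(D : ℝ) * den X := by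
    rw [Finset.sum_eq_single 1]
    · rw [h8]
      unfold Yv
      rw [if_neg (by decide), h5, val_nd]
      push_cast
      ring
    · intro c hc hc1
      have h10 := allb_spec h7 c (mem_range.1 hc)
      simp only [Bool.or_eq_true, decide_eq_true_eq] at h10
      rcases h10 with h10 | h10
      · have : c = 0 := by omega
        rw [this]
        unfold Yv
        rw [if_pos rfl, mul_zero]
      · rw [h10]
        simp
    · intro h
      exact absurd (mem_range.2 (by omega)) h
  rw [e4] at e3
  unfold totL at e3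
  rw [ev_append] at e3
  unfold totC
  rw [Int.cast_add]
  linarith

end Pool.Agent.H39.BM
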