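import Mathlib
import Pool.Agent.H39.BM.Fin

set_option autoImplicit false

/-!
# Data of the certificate
-/

namespace Pool.Agent.H39.BM.D1

open Pool.Agent.H39.BM

def R : List Node := [⟨0, 0, 0⟩, ⟨0, 0, 0⟩, ⟨2, 0, 6⟩, ⟨2, 0, 3⟩, ⟨2, 0, 5⟩, ⟨2, 0, 2⟩, ⟨2, 1, 3⟩, ⟨2, 3, 4⟩, ⟨2, 2, 5⟩, ⟨3, 0, 58⟩, ⟨3, 0, 12⟩, ⟨3, 0, 13⟩, ⟨3, 0, 30⟩, ⟨3, 9, 36⟩, ⟨3, 0, 44⟩, ⟨3, 18, 30⟩, ⟨3, 8, 45⟩, ⟨3, 0, 37⟩, ⟨3, 22, 26⟩, ⟨3, 9, 37⟩, ⟨3, 8, 37⟩, ⟨3, 13, 32⟩, ⟨3, 13, 33⟩, ⟨3, 12, 41⟩, ⟨3, 12, 33⟩]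

def T0 : List Ent := [
  ⟨⟨3, 1, 0⟩, 0, [(.y, ⟨3, 0, 1⟩)], 1⟩,
  ⟨⟨3, 32, 0⟩, 0, [(.y, ⟨3, 0, 32⟩)], 4⟩,
  ⟨⟨3, 32, 1⟩, 2, [(.y, ⟨3, 1, 32⟩), (.e [0, 2, 1] [0, 2], ⟨2, 1, 4⟩), (.s 0, ⟨2, 1, 7⟩), (.y, ⟨2, 7, 1⟩), (.c, ⟨2, 0, 6⟩)], 0⟩,
  ⟨⟨3, 41, 0⟩, 0, [(.y, ⟨3, 0, 41⟩)], 5⟩,
  ⟨⟨3, 41, 1⟩, 2, [(.y, ⟨3, 1, 41⟩), (.e [0, 2, 1] [0, 2], ⟨2, 1, 7⟩), (.y, ⟨2, 7, 1⟩), (.c, ⟨2, 0, 6⟩)], 0⟩,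
  ⟨⟨3, 41, 32⟩, 3, [(.y, ⟨3, 32, 41⟩), (.e [0, 2, 1] [0, 2], ⟨2, 4, 7⟩), (.y, ⟨2, 7, 4⟩), (.c, ⟨2, 0, 3⟩)], 0⟩,
  ⟨⟨3, 33, 0⟩, 4, [(.y, ⟨3, 0, 33⟩), (.e [0, 2, 1] [0, 2], ⟨2, 0, 5⟩)], 0⟩,
  ⟨⟨3, 33, 1⟩, 0, [(.y, ⟨3, 1, 33⟩)], 4⟩,
  ⟨⟨3, 33, 32⟩, 0, [(.y, ⟨3, 32, 33⟩)], 1⟩,
  ⟨⟨3, 33, 41⟩, 5, [(.e [0, 2, 1] [0, 2], ⟨2, 5, 7⟩), (.y, ⟨2, 7, 5⟩), (.c, ⟨2, 0, 2⟩)], 0⟩,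
  ⟨⟨3, 9, 0⟩, 3, [(.y, ⟨3, 0, 9⟩), (.e [0, 2, 1] [0, 2], ⟨2, 0, 3⟩)], 0⟩,
  ⟨⟨3, 9, 1⟩, 6, [(.y, ⟨3, 1, 9⟩), (.e [0, 2, 1] [0, 2], ⟨2, 1, 3⟩)], 0⟩,
  ⟨⟨3, 9, 32⟩, 7, [(.e [0, 2, 1] [0, 2], ⟨2, 3, 4⟩)], 0⟩,
  ⟨⟨3, 9, 41⟩, 0, [], 4⟩,
  ⟨⟨3, 9, 33⟩, 2, [(.e [0, 2, 1] [0, 2], ⟨2, 3, 5⟩), (.y, ⟨2, 5, 3⟩), (.c, ⟨2, 2, 4⟩), (.i [2, 0, 1] [1, 2], ⟨3, 24, 40⟩), (.y, ⟨3, 40, 24⟩), (.t 0, ⟨3, 40, 16⟩), (.w 0, ⟨3, 8, 48⟩), (.s 0, ⟨3, 8, 56⟩), (.e [2, 0, 1] [1, 2], ⟨2, 0, 6⟩)], 0⟩,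
  ⟨⟨3, 8, 0⟩, 5, [(.y, ⟨3, 0, 8⟩), (.e [0, 2, 1] [0, 2], ⟨2, 0, 2⟩)], 0⟩,
  ⟨⟨3, 8, 1⟩, 3, [(.y, ⟨3, 1, 8⟩), (.i [0, 1, 3, 2] [0, 1, 3], ⟨4, 9, 72⟩), (.t 2, ⟨4, 9, 64⟩), (.w 2, ⟨4, 8, 65⟩), (.s 2, ⟨4, 8, 73⟩), (.e [0, 1, 3, 2] [0, 1, 3], ⟨3, 0, 9⟩), (.e [0, 2, 1] [0, 2], ⟨2, 0, 3⟩)], 0⟩,
  ⟨⟨3, 8, 32⟩, 2, [(.e [0, 2, 1] [0, 2], ⟨2, 2, 4⟩), (.i [2, 0, 1] [1, 2], ⟨3, 24, 40⟩), (.y, ⟨3, 40, 24⟩), (.t 0, ⟨3, 40, 16⟩), (.w 0, ⟨3, 8, 48⟩), (.s 0, ⟨3, 8, 56⟩), (.e [2, 0, 1] [1, 2], ⟨2, 0, 6⟩)], 0⟩,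
  ⟨⟨3, 8, 41⟩, 4, [(.e [0, 2, 1] [0, 2], ⟨2, 2, 7⟩), (.y, ⟨2, 7, 2⟩), (.c, ⟨2, 0, 5⟩)], 0⟩,
  ⟨⟨3, 8, 33⟩, 8, [(.e [0, 2, 1] [0, 2], ⟨2, 2, 5⟩)], 0⟩]

def T1 : List Ent := [
  ⟨⟨3, 8, 9⟩, 0, [], 1⟩,
  ⟨⟨3, 4, 0⟩, 0, [(.y, ⟨3, 0, 4⟩)], 2⟩,
  ⟨⟨3, 4, 1⟩, 2, [(.y, ⟨3, 1, 4⟩), (.e [0, 1, 2] [0, 1], ⟨2, 1, 4⟩), (.s 0, ⟨2, 1, 7⟩), (.y, ⟨2, 7, 1⟩), (.c, ⟨2, 0, 6⟩)], 0⟩,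
  ⟨⟨3, 4, 32⟩, 2, [(.e [2, 0, 1] [1, 2], ⟨2, 1, 4⟩), (.s 0, ⟨2, 1, 7⟩), (.y, ⟨2, 7, 1⟩), (.c, ⟨2, 0, 6⟩)], 0⟩,
  ⟨⟨3, 4, 41⟩, 2, [(.e [1, 0, 1] [1, 2], ⟨2, 1, 4⟩), (.s 0, ⟨2, 1, 7⟩), (.y, ⟨2, 7, 1⟩), (.c, ⟨2, 0, 6⟩)], 0⟩,
  ⟨⟨3, 4, 33⟩, 9, [(.y, ⟨3, 33, 4⟩), (.s 0, ⟨3, 33, 7⟩), (.y, ⟨3, 7, 33⟩), (.w 1, ⟨3, 5, 41⟩), (.s 1, ⟨3, 5, 63⟩), (.y, ⟨3, 63, 5⟩), (.c, ⟨3, 0, 58⟩)], 0⟩,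
  ⟨⟨3, 4, 9⟩, 10, [(.s 1, ⟨3, 4, 11⟩), (.c, ⟨3, 59, 52⟩), (.y, ⟨3, 52, 59⟩), (.i [2, 0, 1, 2] [1, 2, 3], ⟨4, 873, 991⟩), (.t 0, ⟨4, 873, 916⟩), (.w 0, ⟨4, 841, 948⟩), (.s 0, ⟨4, 841, 1023⟩), (.e [2, 0, 1, 2] [1, 2, 3], ⟨3, 48, 63⟩), (.y, ⟨3, 63, 48⟩), (.c, ⟨3, 0, 15⟩), (.i [0, 1, 3, 2] [0, 1, 3], ⟨4, 8, 79⟩), (.t 2, ⟨4, 8, 71⟩), (.w 2, ⟨4, 15, 64⟩), (.s 2, ⟨4, 15, 72⟩), (.e [0, 1, 3, 2] [0, 1, 3], ⟨3, 7, 8⟩), (.y, ⟨3, 8, 7⟩), (.t 0, ⟨3, 8, 4⟩), (.y, ⟨3, 4, 8⟩), (.i [3, 0, 1, 2] [1, 2, 3], ⟨4, 96, 192⟩), (.t 0, ⟨4, 96, 128⟩), (.w 0, ⟨4, 64, 160⟩), (.s 0, ⟨4, 64, 224⟩), (.e [3, 0, 1, 2] [1, 2, 3], ⟨3, 0, 12⟩)],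 0⟩,
  ⟨⟨3, 4, 8⟩, 10, [(.i [3, 0, 1, 2] [1, 2, 3], ⟨4, 96, 192⟩), (.t 0, ⟨4, 96, 128⟩), (.w 0, ⟨4, 64, 160⟩), (.s 0, ⟨4, 64, 224⟩), (.e [3, 0, 1, 2] [1, 2, 3], ⟨3, 0, 12⟩)], 0⟩,
  ⟨⟨3, 5, 0⟩, 4, [(.y, ⟨3, 0, 5⟩), (.e [0, 1, 2] [0, 1], ⟨2, 0, 5⟩)], 0⟩,
  ⟨⟨3, 5, 1⟩, 0, [(.y, ⟨3, 1, 5⟩)], 2⟩,
  ⟨⟨3, 5, 32⟩, 9, [(.w 1, ⟨3, 4, 33⟩), (.y, ⟨3, 33, 4⟩), (.s 0, ⟨3, 33, 7⟩), (.y, ⟨3, 7, 33⟩), (.w 1, ⟨3, 5, 41⟩), (.s 1, ⟨3, 5, 63⟩), (.y, ⟨3, 63, 5⟩), (.c, ⟨3, 0, 58⟩)], 0⟩,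
  ⟨⟨3, 5, 41⟩, 9, [(.s 1, ⟨3, 5, 63⟩), (.y, ⟨3, 63, 5⟩), (.c, ⟨3, 0, 58⟩)], 0⟩,
  ⟨⟨3, 5, 33⟩, 2, [(.e [2, 0, 1] [1, 2], ⟨2, 1, 4⟩), (.s 0, ⟨2, 1, 7⟩), (.y, ⟨2, 7, 1⟩), (.c, ⟨2, 0, 6⟩)], 0⟩,
  ⟨⟨3, 5, 9⟩, 10, [(.s 1, ⟨3, 5, 11⟩), (.c, ⟨3, 58, 52⟩), (.y, ⟨3, 52, 58⟩), (.i [3, 0, 1, 2] [1, 2, 3], ⟨4, 872, 984⟩), (.t 0, ⟨4, 872, 912⟩), (.w 0, ⟨4, 840, 944⟩), (.s 0, ⟨4, 840, 1016⟩), (.e [3, 0, 1, 2] [1, 2, 3], ⟨3, 48, 62⟩), (.y, ⟨3, 62, 48⟩), (.c, ⟨3, 1, 15⟩), (.i [0, 1, 3, 2] [0, 1, 3], ⟨4, 9, 79⟩), (.t 2, ⟨4, 9, 71⟩), (.w 2, ⟨4, 15, 65⟩), (.s 2, ⟨4, 15, 73⟩), (.e [0, 1, 3, 2] [0, 1, 3], ⟨3, 7, 9⟩), (.s 1,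 ⟨3, 7, 11⟩), (.c, ⟨3, 56, 52⟩), (.y, ⟨3, 52, 56⟩), (.i [1, 0, 1, 2] [1, 2, 3], ⟨4, 873, 960⟩), (.t 0, ⟨4, 873, 896⟩), (.w 0, ⟨4, 832, 948⟩), (.s 0, ⟨4, 832, 1023⟩), (.e [1, 0, 1, 2] [1, 2, 3], ⟨3, 48, 63⟩), (.y, ⟨3, 63, 48⟩), (.c, ⟨3, 0, 15⟩), (.i [0, 1, 3, 2] [0, 1, 3], ⟨4, 8, 79⟩), (.t 2, ⟨4, 8, 71⟩), (.w 2, ⟨4, 15, 64⟩), (.s 2, ⟨4, 15, 72⟩), (.e [0, 1, 3, 2] [0, 1, 3], ⟨3, 7, 8⟩), (.y, ⟨3, 8, 7⟩), (.t 0, ⟨3, 8, 4⟩), (.y, ⟨3, 4, 8⟩), (.i [3, 0, 1, 2] [1, 2, 3], ⟨4, 96, 192⟩), (.t 0, ⟨4, 96, 128⟩), (.w 0, ⟨4, 64, 160⟩), (.s 0, ⟨4, 64, 224⟩), (.e [3, 0, 1, 2] [1, 2, 3], ⟨3, 0, 12⟩)], 0⟩,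
  ⟨⟨3, 5, 8⟩, 11, [(.i [0, 1, 3, 2] [0, 1, 3], ⟨4, 13, 72⟩), (.t 2, ⟨4, 13, 64⟩), (.w 2, ⟨4, 8, 69⟩), (.s 2, ⟨4, 8, 77⟩), (.e [0, 1, 3, 2] [0, 1, 3], ⟨3, 0, 13⟩)], 0⟩,
  ⟨⟨3, 5, 4⟩, 0, [(.y, ⟨3, 4, 5⟩)], 1⟩,
  ⟨⟨3, 36, 0⟩, 4, [(.y, ⟨3, 0, 36⟩), (.e [2, 0, 1] [1, 2], ⟨2, 0, 5⟩)], 0⟩,
  ⟨⟨3, 36, 1⟩, 9, [(.y, ⟨3, 1, 36⟩), (.w 0, ⟨3, 33, 4⟩), (.s 0, ⟨3, 33, 7⟩), (.y, ⟨3, 7, 33⟩), (.w 1, ⟨3, 5, 41⟩), (.s 1, ⟨3, 5, 63⟩), (.y, ⟨3, 63, 5⟩), (.c, ⟨3, 0, 58⟩)], 0⟩,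
  ⟨⟨3, 36, 32⟩, 0, [(.y, ⟨3, 32, 36⟩)], 2⟩,
  ⟨⟨3, 36, 41⟩, 12, [(.y, ⟨3, 41, 36⟩), (.w 0, ⟨3, 33, 52⟩), (.s 0, ⟨3, 33, 63⟩), (.y, ⟨3, 63, 33⟩), (.c, ⟨3, 0, 30⟩)], 0⟩]

def T2 : List Ent := [
  ⟨⟨3, 36, 33⟩, 2, [(.y, ⟨3, 33, 36⟩), (.e [0, 1, 2] [0, 1], ⟨2, 1, 4⟩), (.s 0, ⟨2, 1, 7⟩), (.y, ⟨2, 7, 1⟩), (.c, ⟨2, 0, 6⟩)], 0⟩,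
  ⟨⟨3, 36, 9⟩, 13, [(.y, ⟨3, 9, 36⟩)], 0⟩,
  ⟨⟨3, 36, 8⟩, 14, [(.y, ⟨3, 8, 36⟩), (.i [3, 0, 1, 2] [1, 2, 3], ⟨4, 192, 608⟩), (.y, ⟨4, 608, 192⟩), (.t 0, ⟨4, 608, 128⟩), (.w 0, ⟨4, 64, 672⟩), (.s 0, ⟨4, 64, 736⟩), (.e [3, 0, 1, 2] [1, 2, 3], ⟨3, 0, 44⟩)], 0⟩,
  ⟨⟨3, 36, 4⟩, 0, [(.y, ⟨3, 4, 36⟩)], 4⟩,
  ⟨⟨3, 36, 5⟩, 2, [(.y, ⟨3, 5, 36⟩), (.e [0, 2, 1] [0, 2], ⟨2, 1, 4⟩), (.s 0, ⟨2, 1, 7⟩), (.y, ⟨2, 7, 1⟩), (.c, ⟨2, 0, 6⟩)], 0⟩,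
  ⟨⟨3, 45, 0⟩, 4, [(.y, ⟨3, 0, 45⟩), (.e [1, 0, 1] [1, 2], ⟨2, 0, 5⟩)], 0⟩,
  ⟨⟨3, 45, 1⟩, 9, [(.y, ⟨3, 1, 45⟩), (.i [0, 2, 1, 2] [0, 2, 3], ⟨4, 1, 743⟩), (.t 0, ⟨4, 1, 676⟩), (.e [0, 2, 1, 2] [0, 2, 3], ⟨3, 1, 36⟩), (.w 0, ⟨3, 33, 4⟩), (.s 0, ⟨3, 33, 7⟩), (.y, ⟨3, 7, 33⟩), (.w 1, ⟨3, 5, 41⟩), (.s 1, ⟨3, 5, 63⟩), (.y, ⟨3, 63, 5⟩), (.c, ⟨3, 0, 58⟩)], 0⟩,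
  ⟨⟨3, 45, 32⟩, 12, [(.y, ⟨3, 32, 45⟩), (.i [2, 0, 1, 2] [1, 2, 3], ⟨4, 577, 743⟩), (.t 0, ⟨4, 577, 676⟩), (.w 0, ⟨4, 609, 644⟩), (.s 0, ⟨4, 609, 711⟩), (.e [2, 0, 1, 2] [1, 2, 3], ⟨3, 36, 41⟩), (.y, ⟨3, 41, 36⟩), (.w 0, ⟨3, 33, 52⟩), (.s 0, ⟨3, 33, 63⟩), (.y, ⟨3, 63, 33⟩), (.c, ⟨3, 0, 30⟩)], 0⟩,
  ⟨⟨3, 45, 41⟩, 0, [(.y, ⟨3, 41, 45⟩)], 2⟩,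
  ⟨⟨3, 45, 33⟩, 15, [(.c, ⟨3, 18, 30⟩)], 0⟩,
  ⟨⟨3, 45, 9⟩, 4, [(.y, ⟨3, 9, 45⟩), (.e [2, 0, 1] [1, 2], ⟨2, 0, 5⟩)], 0⟩,
  ⟨⟨3, 45, 8⟩, 16, [(.y, ⟨3, 8, 45⟩)], 0⟩,
  ⟨⟨3, 45, 4⟩, 0, [(.y, ⟨3, 4, 45⟩)], 5⟩,
  ⟨⟨3, 45, 5⟩, 2, [(.y, ⟨3, 5, 45⟩), (.e [0, 2, 1] [0, 2], ⟨2, 1, 7⟩), (.y, ⟨2, 7, 1⟩), (.c, ⟨2, 0, 6⟩)], 0⟩,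
  ⟨⟨3, 45, 36⟩, 3, [(.y, ⟨3, 36, 45⟩), (.e [0, 2, 1] [0, 2], ⟨2, 4, 7⟩), (.y, ⟨2, 7, 4⟩), (.c, ⟨2, 0, 3⟩)], 0⟩,
  ⟨⟨3, 37, 0⟩, 17, [(.y, ⟨3, 0, 37⟩)], 0⟩,
  ⟨⟨3, 37, 1⟩, 4, [(.y, ⟨3, 1, 37⟩), (.e [2, 0, 1] [1, 2], ⟨2, 0, 5⟩)], 0⟩,
  ⟨⟨3, 37, 32⟩, 4, [(.y, ⟨3, 32, 37⟩), (.e [0, 1, 2] [0, 1], ⟨2, 0, 5⟩)], 0⟩,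
  ⟨⟨3, 37, 41⟩, 18, [(.y, ⟨3, 41, 37⟩), (.c, ⟨3, 22, 26⟩)], 0⟩,
  ⟨⟨3, 37, 33⟩, 0, [(.y, ⟨3, 33, 37⟩)], 2⟩]

def T3 : List Ent := [
  ⟨⟨3, 37, 9⟩, 19, [(.y, ⟨3, 9, 37⟩)], 0⟩,
  ⟨⟨3, 37, 8⟩, 20, [(.y, ⟨3, 8, 37⟩)], 0⟩,
  ⟨⟨3, 37, 4⟩, 4, [(.y, ⟨3, 4, 37⟩), (.e [0, 2, 1] [0, 2], ⟨2, 0, 5⟩)], 0⟩,
  ⟨⟨3, 37, 5⟩, 0, [(.y, ⟨3, 5, 37⟩)], 4⟩,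
  ⟨⟨3, 37, 36⟩, 0, [(.y, ⟨3, 36, 37⟩)], 1⟩,
  ⟨⟨3, 37, 45⟩, 5, [(.e [0, 2, 1] [0, 2], ⟨2, 5, 7⟩), (.y, ⟨2, 7, 5⟩), (.c, ⟨2, 0, 2⟩)], 0⟩,
  ⟨⟨3, 13, 0⟩, 11, [(.y, ⟨3, 0, 13⟩)], 0⟩,
  ⟨⟨3, 13, 1⟩, 10, [(.y, ⟨3, 1, 13⟩), (.i [0, 1, 3, 2] [0, 1, 3], ⟨4, 9, 77⟩), (.t 2, ⟨4, 9, 69⟩), (.w 2, ⟨4, 13, 65⟩), (.s 2, ⟨4, 13, 73⟩), (.e [0, 1, 3, 2] [0, 1, 3], ⟨3, 5, 9⟩), (.s 1, ⟨3, 5, 11⟩), (.c, ⟨3, 58, 52⟩), (.y, ⟨3, 52, 58⟩), (.i [3, 0, 1, 2] [1, 2, 3], ⟨4, 872, 984⟩), (.t 0, ⟨4, 872, 912⟩), (.w 0, ⟨4, 840, 944⟩), (.s 0, ⟨4, 840, 1016⟩), (.e [3, 0, 1, 2] [1, 2, 3], ⟨3, 48, 62⟩), (.y, ⟨3, 62, 48⟩), (.c, ⟨3, 1, 15⟩),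 (.i [0, 1, 3, 2] [0, 1, 3], ⟨4, 9, 79⟩), (.t 2, ⟨4, 9, 71⟩), (.w 2, ⟨4, 15, 65⟩), (.s 2, ⟨4, 15, 73⟩), (.e [0, 1, 3, 2] [0, 1, 3], ⟨3, 7, 9⟩), (.s 1, ⟨3, 7, 11⟩), (.c, ⟨3, 56, 52⟩), (.y, ⟨3, 52, 56⟩), (.i [1, 0, 1, 2] [1, 2, 3], ⟨4, 873, 960⟩), (.t 0, ⟨4, 873, 896⟩), (.w 0, ⟨4, 832, 948⟩), (.s 0, ⟨4, 832, 1023⟩), (.e [1, 0, 1, 2] [1, 2, 3], ⟨3, 48, 63⟩), (.y, ⟨3, 63, 48⟩), (.c, ⟨3, 0, 15⟩), (.i [0, 1, 3, 2] [0, 1, 3], ⟨4, 8, 79⟩), (.t 2, ⟨4, 8, 71⟩), (.w 2, ⟨4, 15, 64⟩), (.s 2, ⟨4, 15, 72⟩), (.e [0, 1, 3, 2] [0, 1, 3], ⟨3, 7, 8⟩), (.y, ⟨3, 8, 7⟩), (.t 0, ⟨3, 8, 4⟩), (.y, ⟨3, 4, 8⟩), (.i [3, 0, 1, 2] [1,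 2, 3], ⟨4, 96, 192⟩), (.t 0, ⟨4, 96, 128⟩), (.w 0, ⟨4, 64, 160⟩), (.s 0, ⟨4, 64, 224⟩), (.e [3, 0, 1, 2] [1, 2, 3], ⟨3, 0, 12⟩)], 0⟩,
  ⟨⟨3, 13, 32⟩, 21, [], 0⟩,
  ⟨⟨3, 13, 41⟩, 2, [(.e [2, 0, 1] [1, 2], ⟨2, 1, 4⟩), (.s 0, ⟨2, 1, 7⟩), (.y, ⟨2, 7, 1⟩), (.c, ⟨2, 0, 6⟩)], 0⟩,
  ⟨⟨3, 13, 33⟩, 22, [], 0⟩,
  ⟨⟨3, 13, 9⟩, 0, [(.y, ⟨3, 9, 13⟩)], 2⟩,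
  ⟨⟨3, 13, 8⟩, 4, [(.y, ⟨3, 8, 13⟩), (.e [0, 1, 2] [0, 1], ⟨2, 0, 5⟩)], 0⟩,
  ⟨⟨3, 13, 4⟩, 3, [(.y, ⟨3, 4, 13⟩), (.e [0, 2, 1] [0, 2], ⟨2, 0, 3⟩)], 0⟩,
  ⟨⟨3, 13, 5⟩, 6, [(.y, ⟨3, 5, 13⟩), (.e [0, 2, 1] [0, 2], ⟨2, 1, 3⟩)], 0⟩,
  ⟨⟨3, 13, 36⟩, 7, [(.e [0, 2, 1] [0, 2], ⟨2, 3, 4⟩)], 0⟩,
  ⟨⟨3, 13, 45⟩, 0, [], 4⟩,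
  ⟨⟨3, 13, 37⟩, 2, [(.e [0, 2, 1] [0, 2], ⟨2, 3, 5⟩), (.y, ⟨2, 5, 3⟩), (.c, ⟨2, 2, 4⟩), (.i [2, 0, 1] [1, 2], ⟨3, 24, 40⟩), (.y, ⟨3, 40, 24⟩), (.t 0, ⟨3, 40, 16⟩), (.w 0, ⟨3, 8, 48⟩), (.s 0, ⟨3, 8, 56⟩), (.e [2, 0, 1] [1, 2], ⟨2, 0, 6⟩)], 0⟩,
  ⟨⟨3, 12, 0⟩, 10, [(.y, ⟨3, 0, 12⟩)], 0⟩,
  ⟨⟨3, 12, 1⟩, 10, [(.y, ⟨3, 1, 12⟩), (.i [0, 1, 3, 2] [0, 1, 3], ⟨4, 9, 76⟩), (.t 2, ⟨4, 9, 68⟩), (.w 2, ⟨4, 12, 65⟩), (.s 2, ⟨4, 12, 73⟩), (.e [0, 1, 3, 2] [0, 1, 3], ⟨3, 4, 9⟩), (.s 1, ⟨3, 4, 11⟩), (.c, ⟨3, 59, 52⟩), (.y, ⟨3, 52, 59⟩), (.i [2, 0, 1, 2] [1, 2, 3], ⟨4, 873, 991⟩), (.t 0, ⟨4, 873, 916⟩), (.w 0, ⟨4, 841, 948⟩),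 (.s 0, ⟨4, 841, 1023⟩), (.e [2, 0, 1, 2] [1, 2, 3], ⟨3, 48, 63⟩), (.y, ⟨3, 63, 48⟩), (.c, ⟨3, 0, 15⟩), (.i [0, 1, 3, 2] [0, 1, 3], ⟨4, 8, 79⟩), (.t 2, ⟨4, 8, 71⟩), (.w 2, ⟨4, 15, 64⟩), (.s 2, ⟨4, 15, 72⟩), (.e [0, 1, 3, 2] [0, 1, 3], ⟨3, 7, 8⟩), (.y, ⟨3, 8, 7⟩), (.t 0, ⟨3, 8, 4⟩), (.y, ⟨3, 4, 8⟩), (.i [3, 0, 1, 2] [1, 2, 3], ⟨4, 96, 192⟩), (.t 0, ⟨4, 96, 128⟩), (.w 0, ⟨4, 64, 160⟩), (.s 0, ⟨4, 64, 224⟩), (.e [3, 0, 1, 2] [1, 2, 3], ⟨3, 0, 12⟩)], 0⟩]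

def T4 : List Ent := [
  ⟨⟨3, 12, 32⟩, 10, [(.i [3, 0, 1, 2] [1, 2, 3], ⟨4, 224, 576⟩), (.y, ⟨4, 576, 224⟩), (.t 0, ⟨4, 576, 160⟩), (.w 0, ⟨4, 96, 640⟩), (.s 0, ⟨4, 96, 704⟩), (.e [3, 0, 1, 2] [1, 2, 3], ⟨3, 4, 40⟩), (.y, ⟨3, 40, 4⟩), (.s 0, ⟨3, 40, 7⟩), (.y, ⟨3, 7, 40⟩), (.w 1, ⟨3, 6, 41⟩), (.s 1, ⟨3, 6, 63⟩), (.y, ⟨3, 63, 6⟩), (.c, ⟨3, 0, 57⟩), (.i [0, 3, 1, 2] [0, 2, 3], ⟨4, 128, 961⟩), (.t 1, ⟨4, 128, 833⟩), (.w 1, ⟨4, 705, 256⟩), (.s 1, ⟨4, 705, 384⟩), (.y, ⟨4, 384, 705⟩), (.e [0, 3, 1, 2] [0, 2, 3], ⟨3, 16, 41⟩), (.y, ⟨3, 41, 16⟩), (.w 0, ⟨3, 8, 52⟩), (.i [3, 0, 1, 2] [1, 2, 3], ⟨4, 192, 864⟩), (.y,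 ⟨4, 864, 192⟩), (.t 0, ⟨4, 864, 128⟩), (.w 0, ⟨4, 64, 928⟩), (.s 0, ⟨4, 64, 992⟩), (.e [3, 0, 1, 2] [1, 2, 3], ⟨3, 0, 60⟩), (.c, ⟨3, 63, 3⟩), (.y, ⟨3, 3, 63⟩), (.t 1, ⟨3, 3, 41⟩), (.w 1, ⟨3, 7, 9⟩), (.s 1, ⟨3, 7, 11⟩), (.c, ⟨3, 56, 52⟩), (.y, ⟨3, 52, 56⟩), (.i [1, 0, 1, 2] [1, 2, 3], ⟨4, 873, 960⟩), (.t 0, ⟨4, 873, 896⟩), (.w 0, ⟨4, 832, 948⟩), (.s 0, ⟨4, 832, 1023⟩), (.e [1, 0, 1, 2] [1, 2, 3], ⟨3, 48, 63⟩), (.y, ⟨3, 63, 48⟩), (.c, ⟨3, 0, 15⟩), (.i [0, 1, 3, 2] [0, 1, 3], ⟨4, 8, 79⟩), (.t 2, ⟨4, 8, 71⟩), (.w 2, ⟨4, 15, 64⟩), (.s 2, ⟨4, 15, 72⟩), (.e [0, 1, 3, 2] [0, 1, 3], ⟨3, 7, 8⟩), (.y, ⟨3, 8, 7⟩), (.t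 0, ⟨3, 8, 4⟩), (.y, ⟨3, 4, 8⟩), (.i [3, 0, 1, 2] [1, 2, 3], ⟨4, 96, 192⟩), (.t 0, ⟨4, 96, 128⟩), (.w 0, ⟨4, 64, 160⟩), (.s 0, ⟨4, 64, 224⟩), (.e [3, 0, 1, 2] [1, 2, 3], ⟨3, 0, 12⟩)], 0⟩,
  ⟨⟨3, 12, 41⟩, 23, [], 0⟩,
  ⟨⟨3, 12, 33⟩, 24, [], 0⟩,
  ⟨⟨3, 12, 9⟩, 2, [(.y, ⟨3, 9, 12⟩), (.e [0, 1, 2] [0, 1], ⟨2, 1, 4⟩), (.s 0, ⟨2, 1, 7⟩), (.y, ⟨2, 7, 1⟩), (.c, ⟨2, 0, 6⟩)], 0⟩,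
  ⟨⟨3, 12, 8⟩, 0, [(.y, ⟨3, 8, 12⟩)], 2⟩,
  ⟨⟨3, 12, 4⟩, 5, [(.y, ⟨3, 4, 12⟩), (.e [0, 2, 1] [0, 2], ⟨2, 0, 2⟩)], 0⟩,
  ⟨⟨3, 12, 5⟩, 3, [(.y, ⟨3, 5, 12⟩), (.e [0, 2, 1] [0, 2], ⟨2, 1, 2⟩), (.i [0, 2, 1] [0, 2], ⟨3, 3, 10⟩), (.t 1, ⟨3, 3, 8⟩), (.w 1, ⟨3, 2, 9⟩), (.s 1, ⟨3, 2, 11⟩), (.e [0, 2, 1] [0, 2], ⟨2, 0, 3⟩)], 0⟩,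
  ⟨⟨3, 12, 36⟩, 2, [(.e [0, 2, 1] [0, 2], ⟨2, 2, 4⟩), (.i [2, 0, 1] [1, 2], ⟨3, 24, 40⟩), (.y, ⟨3, 40, 24⟩), (.t 0, ⟨3, 40, 16⟩), (.w 0, ⟨3, 8, 48⟩), (.s 0, ⟨3, 8, 56⟩), (.e [2, 0, 1] [1, 2], ⟨2, 0, 6⟩)], 0⟩,
  ⟨⟨3, 12, 45⟩, 4, [(.e [0, 2, 1] [0, 2], ⟨2, 2, 7⟩), (.y, ⟨2, 7, 2⟩), (.c, ⟨2, 0, 5⟩)], 0⟩,
  ⟨⟨3, 12, 37⟩, 8, [(.e [0, 2, 1] [0, 2], ⟨2, 2, 5⟩)], 0⟩,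
  ⟨⟨3, 12, 13⟩, 0, [], 1⟩,
  ⟨⟨3, 1, 4⟩, 2, [(.e [0, 1, 2] [0, 1], ⟨2, 1, 4⟩), (.s 0, ⟨2, 1, 7⟩), (.y, ⟨2, 7, 1⟩), (.c, ⟨2, 0, 6⟩)], 0⟩,
  ⟨⟨3, 1, 52⟩, 2, [(.e [0, 1, 1] [0, 2], ⟨2, 1, 4⟩), (.s 0, ⟨2, 1, 7⟩), (.y, ⟨2, 7, 1⟩), (.c, ⟨2, 0, 6⟩)], 0⟩,
  ⟨⟨3, 41, 4⟩, 2, [(.y, ⟨3, 4, 41⟩), (.e [1, 0, 1] [1, 2], ⟨2, 1, 4⟩), (.s 0, ⟨2, 1, 7⟩), (.y, ⟨2, 7, 1⟩), (.c, ⟨2, 0, 6⟩)], 0⟩,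
  ⟨⟨3, 41, 52⟩, 3, [(.s 0, ⟨3, 41, 63⟩), (.e [1, 0, 1] [1, 2], ⟨2, 4, 7⟩), (.y, ⟨2, 7, 4⟩), (.c, ⟨2, 0, 3⟩)], 0⟩,
  ⟨⟨3, 0, 0⟩, 1, [(.e [] [], ⟨0, 0, 0⟩)], 0⟩,
  ⟨⟨3, 0, 32⟩, 0, [], 4⟩,
  ⟨⟨3, 0, 4⟩, 0, [], 2⟩,
  ⟨⟨3, 0, 36⟩, 4, [(.e [2, 0, 1] [1, 2], ⟨2, 0, 5⟩)], 0⟩,
  ⟨⟨3, 0, 16⟩, 5, [(.e [2, 0, 1] [1, 2], ⟨2, 0, 2⟩)], 0⟩]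

def T5 : List Ent := [
  ⟨⟨3, 0, 48⟩, 2, [(.e [2, 0, 1] [1, 2], ⟨2, 0, 6⟩)], 0⟩,
  ⟨⟨3, 0, 52⟩, 0, [], 6⟩,
  ⟨⟨3, 32, 32⟩, 1, [(.e [] [], ⟨0, 0, 0⟩)], 0⟩,
  ⟨⟨3, 32, 4⟩, 2, [(.y, ⟨3, 4, 32⟩), (.e [2, 0, 1] [1, 2], ⟨2, 1, 4⟩), (.s 0, ⟨2, 1, 7⟩), (.y, ⟨2, 7, 1⟩), (.c, ⟨2, 0, 6⟩)], 0⟩,
  ⟨⟨3, 32, 36⟩, 0, [], 2⟩,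
  ⟨⟨3, 32, 16⟩, 2, [(.y, ⟨3, 16, 32⟩), (.i [0, 3, 1, 2] [0, 2, 3], ⟨4, 384, 640⟩), (.y, ⟨4, 640, 384⟩), (.t 1, ⟨4, 640, 256⟩), (.w 1, ⟨4, 128, 768⟩), (.s 1, ⟨4, 128, 896⟩), (.e [0, 3, 1, 2] [0, 2, 3], ⟨3, 0, 48⟩), (.e [2, 0, 1] [1, 2], ⟨2, 0, 6⟩)], 0⟩,
  ⟨⟨3, 32, 48⟩, 6, [(.e [2, 0, 1] [1, 2], ⟨2, 4, 6⟩), (.y, ⟨2, 6, 4⟩), (.c, ⟨2, 1, 3⟩)], 0⟩,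
  ⟨⟨3, 32, 52⟩, 3, [(.e [2, 0, 1] [1, 2], ⟨2, 4, 7⟩), (.y, ⟨2, 7, 4⟩), (.c, ⟨2, 0, 3⟩)], 0⟩,
  ⟨⟨3, 1, 32⟩, 2, [(.e [0, 2, 1] [0, 2], ⟨2, 1, 4⟩), (.s 0, ⟨2, 1, 7⟩), (.y, ⟨2, 7, 1⟩), (.c, ⟨2, 0, 6⟩)], 0⟩,
  ⟨⟨3, 1, 36⟩, 9, [(.w 0, ⟨3, 33, 4⟩), (.s 0, ⟨3, 33, 7⟩), (.y, ⟨3, 7, 33⟩), (.w 1, ⟨3, 5, 41⟩), (.s 1, ⟨3, 5, 63⟩), (.y, ⟨3, 63, 5⟩), (.c, ⟨3, 0, 58⟩)], 0⟩,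
  ⟨⟨3, 1, 16⟩, 10, [(.w 0, ⟨3, 8, 4⟩), (.y, ⟨3, 4, 8⟩), (.i [3, 0, 1, 2] [1, 2, 3], ⟨4, 96, 192⟩), (.t 0, ⟨4, 96, 128⟩), (.w 0, ⟨4, 64, 160⟩), (.s 0, ⟨4, 64, 224⟩), (.e [3, 0, 1, 2] [1, 2, 3], ⟨3, 0, 12⟩)], 0⟩,
  ⟨⟨3, 1, 48⟩, 10, [(.w 0, ⟨3, 40, 4⟩), (.s 0, ⟨3, 40, 7⟩), (.y, ⟨3, 7, 40⟩), (.w 1, ⟨3, 6, 41⟩), (.s 1, ⟨3, 6, 63⟩), (.y, ⟨3, 63, 6⟩), (.c, ⟨3, 0, 57⟩), (.i [0, 3, 1, 2] [0, 2, 3], ⟨4, 128, 961⟩), (.t 1, ⟨4, 128, 833⟩), (.w 1, ⟨4, 705, 256⟩), (.s 1, ⟨4, 705, 384⟩), (.y, ⟨4, 384, 705⟩), (.e [0, 3, 1, 2] [0, 2, 3], ⟨3, 16, 41⟩), (.y, ⟨3, 41, 16⟩), (.w 0, ⟨3, 8, 52⟩), (.i [3, 0, 1, 2] [1, 2, 3], ⟨4,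 192, 864⟩), (.y, ⟨4, 864, 192⟩), (.t 0, ⟨4, 864, 128⟩), (.w 0, ⟨4, 64, 928⟩), (.s 0, ⟨4, 64, 992⟩), (.e [3, 0, 1, 2] [1, 2, 3], ⟨3, 0, 60⟩), (.c, ⟨3, 63, 3⟩), (.y, ⟨3, 3, 63⟩), (.t 1, ⟨3, 3, 41⟩), (.w 1, ⟨3, 7, 9⟩), (.s 1, ⟨3, 7, 11⟩), (.c, ⟨3, 56, 52⟩), (.y, ⟨3, 52, 56⟩), (.i [1, 0, 1, 2] [1, 2, 3], ⟨4, 873, 960⟩), (.t 0, ⟨4, 873, 896⟩), (.w 0, ⟨4, 832, 948⟩), (.s 0, ⟨4, 832, 1023⟩), (.e [1, 0, 1, 2] [1, 2, 3], ⟨3, 48, 63⟩), (.y, ⟨3, 63, 48⟩), (.c, ⟨3, 0, 15⟩), (.i [0, 1, 3, 2] [0, 1, 3], ⟨4, 8, 79⟩), (.t 2, ⟨4, 8, 71⟩), (.w 2, ⟨4, 15, 64⟩), (.s 2, ⟨4, 15, 72⟩), (.e [0, 1, 3, 2] [0, 1, 3], ⟨3, 7, 8⟩), (.y,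 ⟨3, 8, 7⟩), (.t 0, ⟨3, 8, 4⟩), (.y, ⟨3, 4, 8⟩), (.i [3, 0, 1, 2] [1, 2, 3], ⟨4, 96, 192⟩), (.t 0, ⟨4, 96, 128⟩), (.w 0, ⟨4, 64, 160⟩), (.s 0, ⟨4, 64, 224⟩), (.e [3, 0, 1, 2] [1, 2, 3], ⟨3, 0, 12⟩)], 0⟩,
  ⟨⟨3, 33, 4⟩, 9, [(.s 0, ⟨3, 33, 7⟩), (.y, ⟨3, 7, 33⟩), (.w 1, ⟨3, 5, 41⟩), (.s 1, ⟨3, 5, 63⟩), (.y, ⟨3, 63, 5⟩), (.c, ⟨3, 0, 58⟩)], 0⟩,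
  ⟨⟨3, 33, 36⟩, 2, [(.e [0, 1, 2] [0, 1], ⟨2, 1, 4⟩), (.s 0, ⟨2, 1, 7⟩), (.y, ⟨2, 7, 1⟩), (.c, ⟨2, 0, 6⟩)], 0⟩,
  ⟨⟨3, 33, 16⟩, 14, [(.w 0, ⟨3, 8, 36⟩), (.i [3, 0, 1, 2] [1, 2, 3], ⟨4, 192, 608⟩), (.y, ⟨4, 608, 192⟩), (.t 0, ⟨4, 608, 128⟩), (.w 0, ⟨4, 64, 672⟩), (.s 0, ⟨4, 64, 736⟩), (.e [3, 0, 1, 2] [1, 2, 3], ⟨3, 0, 44⟩)], 0⟩,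
  ⟨⟨3, 33, 48⟩, 10, [(.s 0, ⟨3, 33, 56⟩), (.y, ⟨3, 56, 33⟩), (.c, ⟨3, 7, 30⟩), (.i [0, 1, 3, 2] [0, 1, 3], ⟨4, 31, 222⟩), (.t 2, ⟨4, 31, 198⟩), (.w 2, ⟨4, 30, 199⟩), (.s 2, ⟨4, 30, 223⟩), (.e [0, 1, 3, 2] [0, 1, 3], ⟨3, 6, 31⟩), (.c, ⟨3, 57, 32⟩), (.y, ⟨3, 32, 57⟩), (.i [0, 3, 1, 2] [0, 2, 3], ⟨4, 640, 961⟩), (.t 1, ⟨4, 640, 833⟩), (.w 1, ⟨4, 705, 768⟩), (.s 1, ⟨4, 705, 896⟩), (.e [0, 3, 1, 2] [0, 2, 3], ⟨3, 41, 48⟩), (.w 0, ⟨3, 40, 52⟩), (.i [0, 2, 1, 2] [0, 2, 3], ⟨4, 710, 948⟩), (.t 1, ⟨4, 710, 800⟩), (.w 1, ⟨4, 644, 872⟩), (.s 1, ⟨4, 644, 1022⟩), (.e [0, 2, 1, 2] [0, 2, 3], ⟨3, 32, 62⟩), (.y, ⟨3, 62,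 32⟩), (.c, ⟨3, 1, 31⟩), (.t 0, ⟨3, 1, 20⟩), (.w 0, ⟨3, 9, 4⟩), (.y, ⟨3, 4, 9⟩), (.s 1, ⟨3, 4, 11⟩), (.c, ⟨3, 59, 52⟩), (.y, ⟨3, 52, 59⟩), (.i [2, 0, 1, 2] [1, 2, 3], ⟨4, 873, 991⟩), (.t 0, ⟨4, 873, 916⟩), (.w 0, ⟨4, 841, 948⟩), (.s 0, ⟨4, 841, 1023⟩), (.e [2, 0, 1, 2] [1, 2, 3], ⟨3, 48, 63⟩), (.y, ⟨3, 63, 48⟩), (.c, ⟨3, 0, 15⟩), (.i [0, 1, 3, 2] [0, 1, 3], ⟨4, 8, 79⟩), (.t 2, ⟨4, 8, 71⟩), (.w 2, ⟨4, 15, 64⟩), (.s 2, ⟨4, 15, 72⟩), (.e [0, 1, 3, 2] [0, 1, 3], ⟨3, 7, 8⟩), (.y, ⟨3, 8, 7⟩), (.t 0, ⟨3, 8, 4⟩), (.y, ⟨3, 4, 8⟩), (.i [3, 0, 1, 2] [1, 2, 3], ⟨4, 96, 192⟩), (.t 0, ⟨4, 96, 128⟩), (.w 0, ⟨4, 64, 160⟩),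 (.s 0, ⟨4, 64, 224⟩), (.e [3, 0, 1, 2] [1, 2, 3], ⟨3, 0, 12⟩)], 0⟩,
  ⟨⟨3, 33, 52⟩, 12, [(.s 0, ⟨3, 33, 63⟩), (.y, ⟨3, 63, 33⟩), (.c, ⟨3, 0, 30⟩)], 0⟩,
  ⟨⟨3, 8, 4⟩, 10, [(.y, ⟨3, 4, 8⟩), (.i [3, 0, 1, 2] [1, 2, 3], ⟨4, 96, 192⟩), (.t 0, ⟨4, 96, 128⟩), (.w 0, ⟨4, 64, 160⟩), (.s 0, ⟨4, 64, 224⟩), (.e [3, 0, 1, 2] [1, 2, 3], ⟨3, 0, 12⟩)], 0⟩,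
  ⟨⟨3, 8, 36⟩, 14, [(.i [3, 0, 1, 2] [1, 2, 3], ⟨4, 192, 608⟩), (.y, ⟨4, 608, 192⟩), (.t 0, ⟨4, 608, 128⟩), (.w 0, ⟨4, 64, 672⟩), (.s 0, ⟨4, 64, 736⟩), (.e [3, 0, 1, 2] [1, 2, 3], ⟨3, 0, 44⟩)], 0⟩,
  ⟨⟨3, 8, 16⟩, 5, [(.s 0, ⟨3, 8, 24⟩), (.e [2, 0, 1] [1, 2], ⟨2, 0, 2⟩)], 0⟩]

def T6 : List Ent := [
  ⟨⟨3, 8, 48⟩, 2, [(.s 0, ⟨3, 8, 56⟩), (.e [2, 0, 1] [1, 2], ⟨2, 0, 6⟩)], 0⟩,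
  ⟨⟨3, 8, 52⟩, 10, [(.i [3, 0, 1, 2] [1, 2, 3], ⟨4, 192, 864⟩), (.y, ⟨4, 864, 192⟩), (.t 0, ⟨4, 864, 128⟩), (.w 0, ⟨4, 64, 928⟩), (.s 0, ⟨4, 64, 992⟩), (.e [3, 0, 1, 2] [1, 2, 3], ⟨3, 0, 60⟩), (.c, ⟨3, 63, 3⟩), (.y, ⟨3, 3, 63⟩), (.t 1, ⟨3, 3, 41⟩), (.w 1, ⟨3, 7, 9⟩), (.s 1, ⟨3, 7, 11⟩), (.c, ⟨3, 56, 52⟩), (.y, ⟨3, 52, 56⟩), (.i [1, 0, 1, 2] [1, 2, 3], ⟨4, 873, 960⟩), (.t 0, ⟨4, 873, 896⟩), (.w 0, ⟨4, 832, 948⟩), (.s 0, ⟨4, 832, 1023⟩), (.e [1, 0, 1, 2] [1, 2, 3], ⟨3, 48, 63⟩), (.y, ⟨3, 63, 48⟩), (.c, ⟨3, 0, 15⟩), (.i [0, 1, 3, 2] [0, 1, 3], ⟨4, 8, 79⟩), (.t 2, ⟨4, 8, 71⟩), (.w 2, ⟨4, 15, 64⟩), (.s 2, ⟨4,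 15, 72⟩), (.e [0, 1, 3, 2] [0, 1, 3], ⟨3, 7, 8⟩), (.y, ⟨3, 8, 7⟩), (.t 0, ⟨3, 8, 4⟩), (.y, ⟨3, 4, 8⟩), (.i [3, 0, 1, 2] [1, 2, 3], ⟨4, 96, 192⟩), (.t 0, ⟨4, 96, 128⟩), (.w 0, ⟨4, 64, 160⟩), (.s 0, ⟨4, 64, 224⟩), (.e [3, 0, 1, 2] [1, 2, 3], ⟨3, 0, 12⟩)], 0⟩,
  ⟨⟨3, 40, 0⟩, 2, [(.y, ⟨3, 0, 40⟩), (.e [0, 2, 1] [0, 2], ⟨2, 0, 6⟩)], 0⟩,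
  ⟨⟨3, 40, 32⟩, 6, [(.y, ⟨3, 32, 40⟩), (.e [0, 2, 1] [0, 2], ⟨2, 4, 6⟩), (.y, ⟨2, 6, 4⟩), (.c, ⟨2, 1, 3⟩)], 0⟩,
  ⟨⟨3, 40, 4⟩, 10, [(.s 0, ⟨3, 40, 7⟩), (.y, ⟨3, 7, 40⟩), (.w 1, ⟨3, 6, 41⟩), (.s 1, ⟨3, 6, 63⟩), (.y, ⟨3, 63, 6⟩), (.c, ⟨3, 0, 57⟩), (.i [0, 3, 1, 2] [0, 2, 3], ⟨4, 128, 961⟩), (.t 1, ⟨4, 128, 833⟩), (.w 1, ⟨4, 705, 256⟩), (.s 1, ⟨4, 705, 384⟩), (.y, ⟨4, 384, 705⟩), (.e [0, 3, 1, 2] [0, 2, 3], ⟨3, 16, 41⟩), (.y, ⟨3, 41, 16⟩), (.w 0, ⟨3, 8, 52⟩), (.i [3, 0, 1, 2] [1, 2, 3], ⟨4, 192, 864⟩), (.y, ⟨4, 864, 192⟩), (.t 0, ⟨4, 864, 128⟩), (.w 0, ⟨4, 64, 928⟩), (.s 0, ⟨4, 64, 992⟩), (.e [3, 0, 1, 2] [1,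 2, 3], ⟨3, 0, 60⟩), (.c, ⟨3, 63, 3⟩), (.y, ⟨3, 3, 63⟩), (.t 1, ⟨3, 3, 41⟩), (.w 1, ⟨3, 7, 9⟩), (.s 1, ⟨3, 7, 11⟩), (.c, ⟨3, 56, 52⟩), (.y, ⟨3, 52, 56⟩), (.i [1, 0, 1, 2] [1, 2, 3], ⟨4, 873, 960⟩), (.t 0, ⟨4, 873, 896⟩), (.w 0, ⟨4, 832, 948⟩), (.s 0, ⟨4, 832, 1023⟩), (.e [1, 0, 1, 2] [1, 2, 3], ⟨3, 48, 63⟩), (.y, ⟨3, 63, 48⟩), (.c, ⟨3, 0, 15⟩), (.i [0, 1, 3, 2] [0, 1, 3], ⟨4, 8, 79⟩), (.t 2, ⟨4, 8, 71⟩), (.w 2, ⟨4, 15, 64⟩), (.s 2, ⟨4, 15, 72⟩), (.e [0, 1, 3, 2] [0, 1, 3], ⟨3, 7, 8⟩), (.y, ⟨3, 8, 7⟩), (.t 0, ⟨3, 8, 4⟩), (.y, ⟨3, 4, 8⟩), (.i [3, 0, 1, 2] [1, 2, 3], ⟨4, 96, 192⟩), (.t 0, ⟨4, 96, 128⟩), (.w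 0, ⟨4, 64, 160⟩), (.s 0, ⟨4, 64, 224⟩), (.e [3, 0, 1, 2] [1, 2, 3], ⟨3, 0, 12⟩)], 0⟩,
  ⟨⟨3, 40, 36⟩, 10, [(.w 0, ⟨3, 33, 48⟩), (.s 0, ⟨3, 33, 56⟩), (.y, ⟨3, 56, 33⟩), (.c, ⟨3, 7, 30⟩), (.i [0, 1, 3, 2] [0, 1, 3], ⟨4, 31, 222⟩), (.t 2, ⟨4, 31, 198⟩), (.w 2, ⟨4, 30, 199⟩), (.s 2, ⟨4, 30, 223⟩), (.e [0, 1, 3, 2] [0, 1, 3], ⟨3, 6, 31⟩), (.c, ⟨3, 57, 32⟩), (.y, ⟨3, 32, 57⟩), (.i [0, 3, 1, 2] [0, 2, 3], ⟨4, 640, 961⟩), (.t 1, ⟨4, 640, 833⟩), (.w 1, ⟨4, 705, 768⟩), (.s 1, ⟨4, 705, 896⟩), (.e [0, 3, 1, 2] [0, 2, 3], ⟨3, 41, 48⟩), (.w 0, ⟨3, 40, 52⟩), (.i [0, 2, 1, 2] [0, 2, 3], ⟨4, 710, 948⟩), (.t 1, ⟨4, 710, 800⟩),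 (.w 1, ⟨4, 644, 872⟩), (.s 1, ⟨4, 644, 1022⟩), (.e [0, 2, 1, 2] [0, 2, 3], ⟨3, 32, 62⟩), (.y, ⟨3, 62, 32⟩), (.c, ⟨3, 1, 31⟩), (.t 0, ⟨3, 1, 20⟩), (.w 0, ⟨3, 9, 4⟩), (.y, ⟨3, 4, 9⟩), (.s 1, ⟨3, 4, 11⟩), (.c, ⟨3, 59, 52⟩), (.y, ⟨3, 52, 59⟩), (.i [2, 0, 1, 2] [1, 2, 3], ⟨4, 873, 991⟩), (.t 0, ⟨4, 873, 916⟩), (.w 0, ⟨4, 841, 948⟩), (.s 0, ⟨4, 841, 1023⟩), (.e [2, 0, 1, 2] [1, 2, 3], ⟨3, 48, 63⟩), (.y, ⟨3, 63, 48⟩), (.c, ⟨3, 0, 15⟩), (.i [0, 1, 3, 2] [0, 1, 3], ⟨4, 8, 79⟩), (.t 2, ⟨4, 8, 71⟩), (.w 2, ⟨4, 15, 64⟩), (.s 2, ⟨4, 15, 72⟩), (.e [0, 1, 3, 2] [0, 1, 3], ⟨3, 7, 8⟩), (.y, ⟨3, 8, 7⟩), (.t 0, ⟨3, 8, 4⟩),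 (.y, ⟨3, 4, 8⟩), (.i [3, 0, 1, 2] [1, 2, 3], ⟨4, 96, 192⟩), (.t 0, ⟨4, 96, 128⟩), (.w 0, ⟨4, 64, 160⟩), (.s 0, ⟨4, 64, 224⟩), (.e [3, 0, 1, 2] [1, 2, 3], ⟨3, 0, 12⟩)], 0⟩,
  ⟨⟨3, 40, 16⟩, 2, [(.w 0, ⟨3, 8, 48⟩), (.s 0, ⟨3, 8, 56⟩), (.e [2, 0, 1] [1, 2], ⟨2, 0, 6⟩)], 0⟩,
  ⟨⟨3, 40, 48⟩, 6, [(.s 0, ⟨3, 40, 56⟩), (.e [2, 0, 1] [1, 2], ⟨2, 4, 6⟩), (.y, ⟨2, 6, 4⟩), (.c, ⟨2, 1, 3⟩)], 0⟩,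
  ⟨⟨3, 40, 52⟩, 10, [(.i [0, 2, 1, 2] [0, 2, 3], ⟨4, 710, 948⟩), (.t 1, ⟨4, 710, 800⟩), (.w 1, ⟨4, 644, 872⟩), (.s 1, ⟨4, 644, 1022⟩), (.e [0, 2, 1, 2] [0, 2, 3], ⟨3, 32, 62⟩), (.y, ⟨3, 62, 32⟩), (.c, ⟨3, 1, 31⟩), (.t 0, ⟨3, 1, 20⟩), (.w 0, ⟨3, 9, 4⟩), (.y, ⟨3, 4, 9⟩), (.s 1, ⟨3, 4, 11⟩), (.c, ⟨3, 59, 52⟩), (.y, ⟨3, 52, 59⟩), (.i [2, 0, 1, 2] [1, 2, 3], ⟨4, 873, 991⟩), (.t 0, ⟨4, 873, 916⟩), (.w 0, ⟨4, 841, 948⟩), (.s 0, ⟨4, 841, 1023⟩), (.e [2, 0, 1, 2] [1, 2, 3], ⟨3, 48, 63⟩), (.y, ⟨3, 63, 48⟩), (.c, ⟨3, 0, 15⟩), (.i [0, 1, 3, 2] [0, 1, 3], ⟨4, 8, 79⟩), (.t 2, ⟨4, 8, 71⟩), (.w 2, ⟨4, 15, 64⟩), (.s 2, ⟨4,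 15, 72⟩), (.e [0, 1, 3, 2] [0, 1, 3], ⟨3, 7, 8⟩), (.y, ⟨3, 8, 7⟩), (.t 0, ⟨3, 8, 4⟩), (.y, ⟨3, 4, 8⟩), (.i [3, 0, 1, 2] [1, 2, 3], ⟨4, 96, 192⟩), (.t 0, ⟨4, 96, 128⟩), (.w 0, ⟨4, 64, 160⟩), (.s 0, ⟨4, 64, 224⟩), (.e [3, 0, 1, 2] [1, 2, 3], ⟨3, 0, 12⟩)], 0⟩,
  ⟨⟨3, 41, 36⟩, 12, [(.w 0, ⟨3, 33, 52⟩), (.s 0, ⟨3, 33, 63⟩), (.y, ⟨3, 63, 33⟩), (.c, ⟨3, 0, 30⟩)], 0⟩,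
  ⟨⟨3, 41, 16⟩, 10, [(.w 0, ⟨3, 8, 52⟩), (.i [3, 0, 1, 2] [1, 2, 3], ⟨4, 192, 864⟩), (.y, ⟨4, 864, 192⟩), (.t 0, ⟨4, 864, 128⟩), (.w 0, ⟨4, 64, 928⟩), (.s 0, ⟨4, 64, 992⟩), (.e [3, 0, 1, 2] [1, 2, 3], ⟨3, 0, 60⟩), (.c, ⟨3, 63, 3⟩), (.y, ⟨3, 3, 63⟩), (.t 1, ⟨3, 3, 41⟩), (.w 1, ⟨3, 7, 9⟩), (.s 1, ⟨3, 7, 11⟩), (.c, ⟨3, 56, 52⟩), (.y, ⟨3, 52, 56⟩), (.i [1, 0, 1, 2] [1, 2, 3], ⟨4, 873, 960⟩), (.t 0, ⟨4, 873, 896⟩), (.w 0, ⟨4, 832, 948⟩), (.s 0, ⟨4, 832, 1023⟩), (.e [1, 0, 1, 2] [1, 2, 3], ⟨3, 48, 63⟩), (.y, ⟨3, 63, 48⟩), (.c, ⟨3, 0, 15⟩), (.i [0, 1, 3, 2] [0, 1, 3], ⟨4, 8, 79⟩), (.t 2, ⟨4, 8, 71⟩), (.w 2, ⟨4,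 15, 64⟩), (.s 2, ⟨4, 15, 72⟩), (.e [0, 1, 3, 2] [0, 1, 3], ⟨3, 7, 8⟩), (.y, ⟨3, 8, 7⟩), (.t 0, ⟨3, 8, 4⟩), (.y, ⟨3, 4, 8⟩), (.i [3, 0, 1, 2] [1, 2, 3], ⟨4, 96, 192⟩), (.t 0, ⟨4, 96, 128⟩), (.w 0, ⟨4, 64, 160⟩), (.s 0, ⟨4, 64, 224⟩), (.e [3, 0, 1, 2] [1, 2, 3], ⟨3, 0, 12⟩)], 0⟩,
  ⟨⟨3, 41, 48⟩, 10, [(.w 0, ⟨3, 40, 52⟩), (.i [0, 2, 1, 2] [0, 2, 3], ⟨4, 710, 948⟩), (.t 1, ⟨4, 710, 800⟩), (.w 1, ⟨4, 644, 872⟩), (.s 1, ⟨4, 644, 1022⟩), (.e [0, 2, 1, 2] [0, 2, 3], ⟨3, 32, 62⟩), (.y, ⟨3, 62, 32⟩), (.c, ⟨3, 1, 31⟩), (.t 0, ⟨3, 1, 20⟩), (.w 0, ⟨3, 9, 4⟩), (.y, ⟨3, 4, 9⟩), (.s 1, ⟨3, 4, 11⟩), (.c, ⟨3, 59, 52⟩), (.y,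 ⟨3, 52, 59⟩), (.i [2, 0, 1, 2] [1, 2, 3], ⟨4, 873, 991⟩), (.t 0, ⟨4, 873, 916⟩), (.w 0, ⟨4, 841, 948⟩), (.s 0, ⟨4, 841, 1023⟩), (.e [2, 0, 1, 2] [1, 2, 3], ⟨3, 48, 63⟩), (.y, ⟨3, 63, 48⟩), (.c, ⟨3, 0, 15⟩), (.i [0, 1, 3, 2] [0, 1, 3], ⟨4, 8, 79⟩), (.t 2, ⟨4, 8, 71⟩), (.w 2, ⟨4, 15, 64⟩), (.s 2, ⟨4, 15, 72⟩), (.e [0, 1, 3, 2] [0, 1, 3], ⟨3, 7, 8⟩), (.y, ⟨3, 8, 7⟩), (.t 0, ⟨3, 8, 4⟩), (.y, ⟨3, 4, 8⟩), (.i [3, 0, 1, 2] [1, 2, 3], ⟨4, 96, 192⟩), (.t 0, ⟨4, 96, 128⟩), (.w 0, ⟨4, 64, 160⟩), (.s 0, ⟨4, 64, 224⟩), (.e [3, 0, 1, 2] [1, 2, 3], ⟨3, 0, 12⟩)], 0⟩,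
  ⟨⟨3, 0, 1⟩, 0, [], 1⟩,
  ⟨⟨3, 0, 33⟩, 4, [(.e [0, 2, 1] [0, 2], ⟨2, 0, 5⟩)], 0⟩,
  ⟨⟨3, 0, 8⟩, 5, [(.e [0, 2, 1] [0, 2], ⟨2, 0, 2⟩)], 0⟩,
  ⟨⟨3, 0, 9⟩, 3, [(.e [0, 2, 1] [0, 2], ⟨2, 0, 3⟩)], 0⟩,
  ⟨⟨3, 0, 41⟩, 0, [], 5⟩,
  ⟨⟨3, 1, 1⟩, 1, [(.e [] [], ⟨0, 0, 0⟩)], 0⟩,
  ⟨⟨3, 1, 33⟩, 0, [], 4⟩,
  ⟨⟨3, 1, 8⟩, 3, [(.i [0, 1, 3, 2] [0, 1, 3], ⟨4, 9, 72⟩), (.t 2, ⟨4, 9, 64⟩), (.w 2, ⟨4, 8, 65⟩), (.s 2, ⟨4, 8, 73⟩), (.e [0, 1, 3, 2] [0, 1, 3], ⟨3, 0, 9⟩), (.e [0, 2, 1] [0, 2], ⟨2, 0, 3⟩)], 0⟩]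

def T7 : List Ent := [
  ⟨⟨3, 1, 9⟩, 6, [(.e [0, 2, 1] [0, 2], ⟨2, 1, 3⟩)], 0⟩,
  ⟨⟨3, 1, 41⟩, 2, [(.e [0, 2, 1] [0, 2], ⟨2, 1, 7⟩), (.y, ⟨2, 7, 1⟩), (.c, ⟨2, 0, 6⟩)], 0⟩,
  ⟨⟨3, 2, 0⟩, 5, [(.y, ⟨3, 0, 2⟩), (.e [0, 1, 2] [0, 1], ⟨2, 0, 2⟩)], 0⟩,
  ⟨⟨3, 2, 1⟩, 3, [(.y, ⟨3, 1, 2⟩), (.e [0, 1, 2] [0, 1], ⟨2, 1, 2⟩), (.i [0, 2, 1] [0, 2], ⟨3, 3, 10⟩), (.t 1, ⟨3, 3, 8⟩), (.w 1, ⟨3, 2, 9⟩), (.s 1, ⟨3, 2, 11⟩), (.e [0, 2, 1] [0, 2], ⟨2, 0, 3⟩)], 0⟩,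
  ⟨⟨3, 2, 32⟩, 10, [(.w 1, ⟨3, 4, 8⟩), (.i [3, 0, 1, 2] [1, 2, 3], ⟨4, 96, 192⟩), (.t 0, ⟨4, 96, 128⟩), (.w 0, ⟨4, 64, 160⟩), (.s 0, ⟨4, 64, 224⟩), (.e [3, 0, 1, 2] [1, 2, 3], ⟨3, 0, 12⟩)], 0⟩,
  ⟨⟨3, 2, 33⟩, 11, [(.w 1, ⟨3, 5, 8⟩), (.i [0, 1, 3, 2] [0, 1, 3], ⟨4, 13, 72⟩), (.t 2, ⟨4, 13, 64⟩), (.w 2, ⟨4, 8, 69⟩), (.s 2, ⟨4, 8, 77⟩), (.e [0, 1, 3, 2] [0, 1, 3], ⟨3, 0, 13⟩)], 0⟩,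
  ⟨⟨3, 2, 8⟩, 5, [(.s 1, ⟨3, 2, 10⟩), (.e [0, 2, 1] [0, 2], ⟨2, 0, 2⟩)], 0⟩,
  ⟨⟨3, 2, 9⟩, 3, [(.s 1, ⟨3, 2, 11⟩), (.e [0, 2, 1] [0, 2], ⟨2, 0, 3⟩)], 0⟩,
  ⟨⟨3, 2, 41⟩, 10, [(.w 1, ⟨3, 7, 8⟩), (.y, ⟨3, 8, 7⟩), (.t 0, ⟨3, 8, 4⟩), (.y, ⟨3, 4, 8⟩), (.i [3, 0, 1, 2] [1, 2, 3], ⟨4, 96, 192⟩), (.t 0, ⟨4, 96, 128⟩), (.w 0, ⟨4, 64, 160⟩), (.s 0, ⟨4, 64, 224⟩), (.e [3, 0, 1, 2] [1, 2, 3], ⟨3, 0, 12⟩)], 0⟩,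
  ⟨⟨3, 3, 0⟩, 3, [(.y, ⟨3, 0, 3⟩), (.e [0, 1, 2] [0, 1], ⟨2, 0, 3⟩)], 0⟩,
  ⟨⟨3, 3, 1⟩, 6, [(.y, ⟨3, 1, 3⟩), (.e [0, 1, 2] [0, 1], ⟨2, 1, 3⟩)], 0⟩,
  ⟨⟨3, 3, 32⟩, 10, [(.w 1, ⟨3, 4, 9⟩), (.s 1, ⟨3, 4, 11⟩), (.c, ⟨3, 59, 52⟩), (.y, ⟨3, 52, 59⟩), (.i [2, 0, 1, 2] [1, 2, 3], ⟨4, 873, 991⟩), (.t 0, ⟨4, 873, 916⟩), (.w 0, ⟨4, 841, 948⟩), (.s 0, ⟨4, 841, 1023⟩), (.e [2, 0, 1, 2] [1, 2, 3], ⟨3, 48, 63⟩), (.y, ⟨3, 63, 48⟩), (.c, ⟨3, 0, 15⟩), (.i [0, 1, 3, 2] [0, 1, 3], ⟨4, 8, 79⟩), (.t 2, ⟨4, 8, 71⟩), (.w 2, ⟨4, 15, 64⟩), (.s 2, ⟨4, 15, 72⟩), (.e [0, 1, 3, 2] [0, 1, 3], ⟨3, 7, 8⟩), (.y, ⟨3, 8, 7⟩), (.t 0, ⟨3, 8,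 4⟩), (.y, ⟨3, 4, 8⟩), (.i [3, 0, 1, 2] [1, 2, 3], ⟨4, 96, 192⟩), (.t 0, ⟨4, 96, 128⟩), (.w 0, ⟨4, 64, 160⟩), (.s 0, ⟨4, 64, 224⟩), (.e [3, 0, 1, 2] [1, 2, 3], ⟨3, 0, 12⟩)], 0⟩,
  ⟨⟨3, 3, 33⟩, 10, [(.w 1, ⟨3, 5, 9⟩), (.s 1, ⟨3, 5, 11⟩), (.c, ⟨3, 58, 52⟩), (.y, ⟨3, 52, 58⟩), (.i [3, 0, 1, 2] [1, 2, 3], ⟨4, 872, 984⟩), (.t 0, ⟨4, 872, 912⟩), (.w 0, ⟨4, 840, 944⟩), (.s 0, ⟨4, 840, 1016⟩), (.e [3, 0, 1, 2] [1, 2, 3], ⟨3, 48, 62⟩), (.y, ⟨3, 62, 48⟩), (.c, ⟨3, 1, 15⟩), (.i [0, 1, 3, 2] [0, 1, 3], ⟨4, 9, 79⟩), (.t 2, ⟨4, 9, 71⟩), (.w 2, ⟨4, 15, 65⟩), (.s 2, ⟨4, 15, 73⟩), (.e [0, 1, 3, 2] [0, 1, 3], ⟨3, 7, 9⟩), (.s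 1, ⟨3, 7, 11⟩), (.c, ⟨3, 56, 52⟩), (.y, ⟨3, 52, 56⟩), (.i [1, 0, 1, 2] [1, 2, 3], ⟨4, 873, 960⟩), (.t 0, ⟨4, 873, 896⟩), (.w 0, ⟨4, 832, 948⟩), (.s 0, ⟨4, 832, 1023⟩), (.e [1, 0, 1, 2] [1, 2, 3], ⟨3, 48, 63⟩), (.y, ⟨3, 63, 48⟩), (.c, ⟨3, 0, 15⟩), (.i [0, 1, 3, 2] [0, 1, 3], ⟨4, 8, 79⟩), (.t 2, ⟨4, 8, 71⟩), (.w 2, ⟨4, 15, 64⟩), (.s 2, ⟨4, 15, 72⟩), (.e [0, 1, 3, 2] [0, 1, 3], ⟨3, 7, 8⟩), (.y, ⟨3, 8, 7⟩), (.t 0, ⟨3, 8, 4⟩), (.y, ⟨3, 4, 8⟩), (.i [3, 0, 1, 2] [1, 2, 3], ⟨4, 96, 192⟩), (.t 0, ⟨4, 96, 128⟩), (.w 0, ⟨4, 64, 160⟩), (.s 0, ⟨4, 64, 224⟩), (.e [3, 0, 1, 2] [1, 2, 3], ⟨3, 0, 12⟩)], 0⟩,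
  ⟨⟨3, 3, 8⟩, 3, [(.w 1, ⟨3, 2, 9⟩), (.s 1, ⟨3, 2, 11⟩), (.e [0, 2, 1] [0, 2], ⟨2, 0, 3⟩)], 0⟩,
  ⟨⟨3, 3, 9⟩, 6, [(.s 1, ⟨3, 3, 11⟩), (.e [0, 2, 1] [0, 2], ⟨2, 1, 3⟩)], 0⟩,
  ⟨⟨3, 3, 41⟩, 10, [(.w 1, ⟨3, 7, 9⟩), (.s 1, ⟨3, 7, 11⟩), (.c, ⟨3, 56, 52⟩), (.y, ⟨3, 52, 56⟩), (.i [1, 0, 1, 2] [1, 2, 3], ⟨4, 873, 960⟩), (.t 0, ⟨4, 873, 896⟩), (.w 0, ⟨4, 832, 948⟩), (.s 0, ⟨4, 832, 1023⟩), (.e [1, 0, 1, 2] [1, 2, 3], ⟨3, 48, 63⟩), (.y, ⟨3, 63, 48⟩), (.c, ⟨3, 0, 15⟩), (.i [0, 1, 3, 2] [0, 1, 3], ⟨4, 8, 79⟩), (.t 2, ⟨4, 8, 71⟩), (.w 2, ⟨4, 15, 64⟩), (.s 2, ⟨4, 15, 72⟩), (.e [0, 1, 3, 2] [0, 1, 3], ⟨3, 7, 8⟩), (.y,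 ⟨3, 8, 7⟩), (.t 0, ⟨3, 8, 4⟩), (.y, ⟨3, 4, 8⟩), (.i [3, 0, 1, 2] [1, 2, 3], ⟨4, 96, 192⟩), (.t 0, ⟨4, 96, 128⟩), (.w 0, ⟨4, 64, 160⟩), (.s 0, ⟨4, 64, 224⟩), (.e [3, 0, 1, 2] [1, 2, 3], ⟨3, 0, 12⟩)], 0⟩,
  ⟨⟨3, 7, 0⟩, 0, [(.y, ⟨3, 0, 7⟩)], 3⟩,
  ⟨⟨3, 7, 1⟩, 2, [(.y, ⟨3, 1, 7⟩), (.e [0, 1, 2] [0, 1], ⟨2, 1, 7⟩), (.y, ⟨2, 7, 1⟩), (.c, ⟨2, 0, 6⟩)], 0⟩,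
  ⟨⟨3, 7, 32⟩, 2, [(.e [0, 0, 1] [1, 2], ⟨2, 1, 4⟩), (.s 0, ⟨2, 1, 7⟩), (.y, ⟨2, 7, 1⟩), (.c, ⟨2, 0, 6⟩)], 0⟩,
  ⟨⟨3, 7, 33⟩, 9, [(.w 1, ⟨3, 5, 41⟩), (.s 1, ⟨3, 5, 63⟩), (.y, ⟨3, 63, 5⟩), (.c, ⟨3, 0, 58⟩)], 0⟩]

def T8 : List Ent := [
  ⟨⟨3, 7, 8⟩, 10, [(.y, ⟨3, 8, 7⟩), (.t 0, ⟨3, 8, 4⟩), (.y, ⟨3, 4, 8⟩), (.i [3, 0, 1, 2] [1, 2, 3], ⟨4, 96, 192⟩), (.t 0, ⟨4, 96, 128⟩), (.w 0, ⟨4, 64, 160⟩), (.s 0, ⟨4, 64, 224⟩), (.e [3, 0, 1, 2] [1, 2, 3], ⟨3, 0, 12⟩)], 0⟩,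
  ⟨⟨3, 7, 9⟩, 10, [(.s 1, ⟨3, 7, 11⟩), (.c, ⟨3, 56, 52⟩), (.y, ⟨3, 52, 56⟩), (.i [1, 0, 1, 2] [1, 2, 3], ⟨4, 873, 960⟩), (.t 0, ⟨4, 873, 896⟩), (.w 0, ⟨4, 832, 948⟩), (.s 0, ⟨4, 832, 1023⟩), (.e [1, 0, 1, 2] [1, 2, 3], ⟨3, 48, 63⟩), (.y, ⟨3, 63, 48⟩), (.c, ⟨3, 0, 15⟩), (.i [0, 1, 3, 2] [0, 1, 3], ⟨4, 8, 79⟩), (.t 2, ⟨4, 8, 71⟩), (.w 2, ⟨4, 15, 64⟩), (.s 2, ⟨4, 15, 72⟩), (.e [0, 1, 3, 2] [0, 1, 3], ⟨3, 7, 8⟩), (.y, ⟨3, 8, 7⟩), (.t 0, ⟨3, 8, 4⟩), (.y, ⟨3, 4, 8⟩), (.i [3, 0, 1, 2] [1, 2, 3], ⟨4, 96, 192⟩), (.t 0, ⟨4, 96, 128⟩), (.w 0, ⟨4, 64, 160⟩), (.s 0, ⟨4, 64, 224⟩), (.e [3, 0, 1, 2] [1, 2, 3], ⟨3, 0, 12⟩)],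 0⟩,
  ⟨⟨3, 7, 41⟩, 2, [(.s 1, ⟨3, 7, 63⟩), (.e [0, 0, 1] [1, 2], ⟨2, 1, 7⟩), (.y, ⟨2, 7, 1⟩), (.c, ⟨2, 0, 6⟩)], 0⟩,
  ⟨⟨0, 0, 0⟩, 1, [], 0⟩]

def T : List Ent := T0 ++ T1 ++ T2 ++ T3 ++ T4 ++ T5 ++ T6 ++ T7 ++ T8

def B : LP := ⟨3, [0, 1, 32, 41, 33, 9, 8, 4, 5, 36, 45, 37, 13, 12],
  [[-894408],
   [0, -1127620],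
   [0, 929731, -1477871],
   [0, -654332, -410137, 1043165],
   [593952, 0, 0, -997342, -1191517],
   [-593902, -717795, -70772, 0, -597579, 593942],
   [-795429, -321653, -668351, -197862, 0, 0, 795422],
   [0, 975999, 1230537, -633005, 919699, -583549, -343031, -1230558],
   [120222, 0, 367535, -760078, 597547, -123839, -215923, 0, -240443],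
   [752861, 512343, 0, -190958, 597547, 0, -597516, 0, 1124338, -1350426],
   [35431, 145165, 371610, 0, 0, 4, 0, 0, -756483, -402911, 367524],
   [0, 247315, 247315, 0, 0, 0, 0, 247315, 0, 0, -1103460, -494629],
   [-336141, -49451, 0, 197850, 0, 0, 215936, -247265, -788216, 70772, 0, -413814, 49440],
   [-14106, -123839, -611669, 0, 0, 123818, 0, -721398, -721350, -721412, -109729, 0, 0, 721391]], 2089653⟩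

def D : List (ℕ × ℕ × ℕ) := [(1, 0, 1), (2, 0, 4), (3, 0, 5), (4, 1, 4), (4, 2, 1), (5, 3, 4), (6, 5, 1), (7, 0, 2), (8, 1, 2), (8, 7, 1), (9, 2, 2), (9, 7, 4), (10, 3, 2), (10, 7, 5), (11, 4, 2), (11, 8, 4), (11, 9, 1), (12, 5, 2), (12, 10, 4), (13, 6, 2), (13, 12, 1)]

def P : List PS := [
  ⟨1, 0, [1, 41], [4, 52], [16, -16], 0, 15765⟩,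
  ⟨1, 0, [0, 32, 1, 33, 8, 40, 41], [0, 32, 4, 36, 16, 48, 52], [3, -5, 4, -16, -5, 1, -5], 7, 3191⟩,
  ⟨1, 0, [0, 32, 1, 33, 8, 40, 41], [0, 32, 4, 36, 16, 48, 52], [-7, 3, -9, 4, -16, 11, -9], 7, 3745⟩,
  ⟨1, 1, [0, 1, 4, 5, 2, 3, 7], [0, 1, 32, 33, 8, 9, 41], [-1, -3, -5, -12, -16, 9, -5], 10, 1797⟩,
  ⟨1, 0, [0, 32, 1, 33, 8, 40, 41], [0, 32, 4, 36, 16, 48, 52], [-4, 5, -1, 16, 3, 1, -1], -6, 10446⟩,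
  ⟨1, 0, [0, 32, 1, 33, 8, 40, 41], [0, 32, 4, 36, 16, 48, 52], [-10, 6, -16, 15, -15, 13, -3], 3, 970⟩,
  ⟨1, 1, [0, 1, 4, 5, 2, 3, 7], [0, 1, 32, 33, 8, 9, 41], [-6, 2, -8, 2, -16, 11, -8], 7, 2156⟩]

lemma hT0 : T0.all (chkT R) = true := by decide +kernel

lemma hT1 : T1.all (chkT R) = true := by decide +kernel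

lemma hT2 : T2.all (chkT R) = true := by decide +kernel

lemma hT3 : T3.all (chkT R) = true := by decide +kernel

lemma hT4 : T4.all (chkT R) = true := by decide +kernel

lemma hT5 : T5.all (chkT R) = true := by decide +kernel

lemma hT6 : T6.all (chkT R) = true := by decide +kernel

lemma hT7 : T7.all (chkT R) = true := by decide +kernel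

lemma hT8 : T8.all (chkT R) = true := by decide +kernel

lemma hT : T.all (chkT R) = true := by
  simp only [T, List.all_append, hT0, hT1, hT2, hT3, hT4, hT5, hT6, hT7, hT8, Bool.and_self]

lemma hL : [(B, D)].all (fun e => chkLP e.1 e.2) = true := by decide +kernel

lemma hP : P.all chkPS = true := by decide +kernel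

lemma hK : chkL 25 (cls T (totL [(B, D)] P)) = true := by decide +kernel

lemma hZ : chkTot 25 10000000 (cls T (totL [(B, D)] P)) = true := by decide +kernel

theorem bound (X : Pool.Agent.TH635.BV.Fam) (hX : X.Bad) : den X ≤ 31 / 100 := by
  have h := cert_sound X hX hT [(B, D)] P hL hP 25 10000000 hK (by decide +kernel) hZ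
  have h1 : totC [(B, D)] P = 3099647 := by decide +kernel
  rw [h1] at h
  push_cast at h
  linarith

end Pool.Agent.H39.BM.D1
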